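import Pool.Agent.N86.S9.Conj

/-!
# At most two blocks are invariant under the four-group, if `q ≡ 3 (mod 4)`
-/

set_option autoImplicit false

namespace Pool.Agent.N86.S9

open Finset Matrix Pool.Agent.N86.S6 Pool.Agent.N86.S4 Pool.Agent.N86.S46 Pool.Agent.N86.S7

/-- in a cyclic group two elements with square in `C` are congruent modulo `C`, if they are not in `C` -/
lemma cyc {A : Type*} [CommGroup A] [Finite A] [IsCyclic A] (C : Subgroup A) {x y : A}
    (hx : x * x ∈ C) (hy : y * y ∈ C) (hx' : x ∉ C) (hy' : y ∉ C) : x⁻¹ * y ∈ C := by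
  classical
  have hcyc : IsCyclic (A ⧸ C) :=
    isCyclic_of_surjective (QuotientGroup.mk' C) (QuotientGroup.mk'_surjective C)
  letI := Fintype.ofFinite (A ⧸ C)
  have h := IsCyclic.card_pow_eq_one_le (α := A ⧸ C) (n := 2) (by norm_num)
  by_contra hcon
  have h1 : (QuotientGroup.mk x : A ⧸ C) ≠ QuotientGroup.mk y := by
    intro e
    exact hcon (QuotientGroup.eq.1 e)
  have h2 : (QuotientGroup.mk x : A ⧸ C) ≠ 1 := by
    intro e
    exact hx' ((QuotientGroup.eq_one_iff x).1 e)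
  have h3 : (QuotientGroup.mk y : A ⧸ C) ≠ 1 := by
    intro e
    exact hy' ((QuotientGroup.eq_one_iff y).1 e)
  have h4 : ({1, QuotientGroup.mk x, QuotientGroup.mk y} : Finset (A ⧸ C)) ⊆
      (univ : Finset (A ⧸ C)).filter (fun a => a ^ 2 = 1) := by
    intro a ha
    rw [Finset.mem_insert, Finset.mem_insert, Finset.mem_singleton] at ha
    rw [Finset.mem_filter]
    refine ⟨Finset.mem_univ _, ?_⟩
    rcases ha with rfl | rfl | rfl
    · exact one_pow 2
    · rw [sq, ← QuotientGroup.mk_mul]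
      exact (QuotientGroup.eq_one_iff _).2 hx
    · rw [sq, ← QuotientGroup.mk_mul]
      exact (QuotientGroup.eq_one_iff _).2 hy
  have h5 := Finset.card_le_card h4
  rw [Finset.card_insert_of_notMem, Finset.card_pair h1] at h5
  · omega
  · rw [Finset.mem_insert, Finset.mem_singleton, not_or]
    exact ⟨h2.symm, h3.symm⟩

section
variable {K L : Type*} [Field K] [DecidableEq K] [Field L] (Q : Quad2 K L (-1) 0)

lemma tau_mulL : MulL Q (tau 0 1) Q.θ where
  ne := theta_ne Q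
  eq u hu := by
    obtain ⟨c, hc, hu'⟩ := Q.eq_rep hu
    generalize Q.phi u = p at hu'
    have h1 : Q.phi (Q.θ * u) = Q.phi (Q.θ * Q.rep p) := by
      have h2 : Q.θ * u = Q.i c * (Q.θ * Q.rep p) := by rw [hu']; ring
      rw [h2, Q.phi_smul hc]
    have h3 : Q.phi u = p := by rw [hu', Q.phi_smul hc, Q.phi_rep]
    have hθ := theta_sq Q
    rw [h1]
    induction p using OnePoint.rec with
    | infty =>
      rw [tau_infty]
      obtain ⟨h4, h5⟩ := Q.coords (x := 0) (y := 1)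
        (u := Q.θ * Q.rep (OnePoint.infty : OnePoint K)) (by
          rw [Q.rep_infty, map_zero, map_one]; ring)
      unfold Quad2.phi
      rw [h4, h5]
      unfold pt
      rw [if_neg one_ne_zero, zero_div]
    | coe x =>
      obtain ⟨h4, h5⟩ := Q.coords (x := -1) (y := x)
        (u := Q.θ * Q.rep (x : OnePoint K)) (by
          rw [Q.rep_coe, map_neg, map_one]; linear_combination hθ)
      unfold Quad2.phi
      rw [h4, h5]
      unfold pt
      by_cases hx : x = 0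
      · rw [hx, if_pos rfl, tau_coe_self]
      · rw [if_neg hx, tau_coe 0 1 x hx]
        congr 1
        rw [Units.val_one, one_pow, sub_zero, zero_sub, neg_div]

lemma sigma_invL {σ : Equiv.Perm (OnePoint K)} (hσ : IsMul σ (-1)) : InvL Q σ 1 where
  ne := one_ne_zero
  eq u hu := by
    obtain ⟨c, hc, hu'⟩ := Q.eq_rep hu
    generalize Q.phi u = p at hu'
    have hc' : Q.i c ≠ 0 := (map_ne_zero Q.i).2 hc
    have h1 : Q.phi (1 / u) = Q.phi (1 / Q.rep p) := by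
      have h2 : 1 / u = Q.i c⁻¹ * (1 / Q.rep p) := by
        rw [hu', map_inv₀, one_div, one_div, _root_.mul_inv]
      rw [h2, Q.phi_smul (inv_ne_zero hc)]
    have h3 : Q.phi u = p := by rw [hu', Q.phi_smul hc, Q.phi_rep]
    have hθ := theta_sq Q
    rw [h1]
    induction p using OnePoint.rec with
    | infty =>
      rw [hσ.inf]
      rw [Q.rep_infty, div_one, ← Q.rep_infty, Q.phi_rep]
    | coe x =>
      have h6 : Q.rep (x : OnePoint K) ≠ 0 := Q.rep_ne _
      have h7 := Q.norm_ne h6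
      rw [← Q.phi_smul h7]
      obtain ⟨h8, h9⟩ := Q.coords (x := x) (y := 1) (u := Q.rep (x : OnePoint K)) (by
        rw [Q.rep_coe, map_one, one_mul])
      have h10 : Q.i (Q.norm (Q.rep (x : OnePoint K))) =
          Q.rep (x : OnePoint K) * (Q.i x - Q.θ) := by
        unfold Quad2.norm
        rw [h8, h9, Q.rep_coe]
        simp only [map_add, map_sub, map_mul, map_pow, map_neg, map_one, map_zero]
        linear_combination hθ
      obtain ⟨h4, h5⟩ := Q.coords (x := x) (y := -1)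
        (u := Q.i (Q.norm (Q.rep (x : OnePoint K))) * (1 / Q.rep (x : OnePoint K))) (by
          rw [h10, map_neg, map_one]
          field_simp
          ring)
      rw [hσ.coe]
      unfold Quad2.phi
      rw [h4, h5]
      unfold pt
      rw [if_neg (neg_ne_zero.2 one_ne_zero)]
      congr 1
      rw [div_neg, div_one, neg_one_mul]

/-- the elements of the torus which lie in `P` -/
def torC (P : Subgroup (Equiv.Perm (OnePoint K))) : Subgroup Lˣ where
  carrier := {w | ∃ g ∈ P, MulL Q g (w : L)}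
  one_mem' := ⟨1, P.one_mem, by rw [Units.val_one]; exact MulL.one⟩
  mul_mem' := by
    rintro a b ⟨g, hg, h⟩ ⟨g', hg', h'⟩
    exact ⟨g * g', P.mul_mem hg hg', by rw [Units.val_mul]; exact h.mul h'⟩
  inv_mem' := by
    rintro a ⟨g, hg, h⟩
    exact ⟨g⁻¹, P.inv_mem hg, by rw [Units.val_inv_eq_inv_val]; exact h.inv⟩

variable [Fintype K]

/-- the relation of two blocks which are invariant under the four-group -/
lemma rel {G : Subgroup (Equiv.Perm (OnePoint K))} {𝓑 : Finset (Finset (OnePoint K))}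
    (hq : Fintype.card K % 4 = 3) (hG : ∀ g ∈ G, ∃ A : GL (Fin 2) K, g = glPerm A)
    (htr : ∀ B ∈ 𝓑, ∀ B' ∈ 𝓑, ∃ g ∈ G, B' = B.image g) {σ : Equiv.Perm (OnePoint K)}
    (hσ : IsMul σ (-1)) {B1 B : Finset (OnePoint K)} (hB1 : B1 ∈ 𝓑) (hB : B ∈ 𝓑)
    (hzB : tau 0 1 ∈ stb G B) (hσB : σ ∈ stb G B) {P : Subgroup (Equiv.Perm (OnePoint K))}
    (hP : IsSyl P (stb G B1)) (hzP : tau 0 1 ∈ P) (hσP : σ ∈ P) :
    ∃ f w, MulL Q f w ∧ B = B1.image f ∧ ∃ g ∈ P, MulL Q g (w * w) := by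
  have hσL := sigma_invL Q hσ
  have hzL := tau_mulL Q
  have hσσ : σ * σ = 1 := hσL.sq
  have hzz : tau (0 : K) 1 * tau 0 1 = 1 := by ext x : 1; exact tau_tau 0 1 x
  have hzσ : tau (0 : K) 1 * σ = σ * tau 0 1 := by
    have h1 := hzL.mul_inv hσL
    have h2 := hσL.mul_mul hzL
    have h3 : InvL Q (σ * tau 0 1) (Q.θ * 1) := by
      refine ⟨mul_ne_zero (theta_ne Q) one_ne_zero, fun u hu => ?_⟩
      rw [h2.eq u hu, ← Q.phi_smul (neg_ne_zero.2 (one_ne_zero (α := K)))]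
      congr 1
      have h4 := theta_sq Q
      have h5 := theta_ne Q
      rw [map_neg, map_one]
      field_simp
      linear_combination -h4
    exact h1.ext h3
  have hstG : ∀ B, stb G B ≤ G := fun B g hg => hg.1
  -- the Sylow subgroup of the other stabilizer
  obtain ⟨P', hP', hWP'⟩ := exists_syl (Q := four _ _ hzz hσσ hzσ) (H := stb G B) (by
    intro g hg
    rcases hg with h | h | h | h
    · rw [h]; exact (stb G B).one_mem
    · rw [h]; exact hzB
    · rw [h]; exact hσB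
    · rw [h]; exact (stb G B).mul_mem hzB hσB) (four_pg hzz hσσ hzσ)
  have hzP' : tau (0 : K) 1 ∈ P' := hWP' (Or.inr (Or.inl rfl))
  have hσP' : σ ∈ P' := hWP' (Or.inr (Or.inr (Or.inl rfl)))
  obtain ⟨g, hg, hBg⟩ := htr B1 hB1 B hB
  have h1 := hP.cj g
  rw [← stb_image hg, ← hBg] at h1
  obtain ⟨h, hh, hhP⟩ := syl_conj h1 hP'
  have hf : ∀ x, x ∈ P' ↔ (h * g)⁻¹ * x * (h * g) ∈ P := fun x => by
    rw [hhP, mem_cj]
    have : g⁻¹ * (h⁻¹ * x * h) * g = (h * g)⁻¹ * x * (h * g) := by group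
    rw [this]
  have hBf : B = B1.image (h * g) := by
    have h5 : (⇑(h * g) : OnePoint K → OnePoint K) = h ∘ g := rfl
    rw [h5, ← Finset.image_image, ← hBg, (mem_stb.1 hh).2]
  have hfG : h * g ∈ G := G.mul_mem (hstG B hh) hg
  generalize h * g = f at hf hBf hfG
  -- `z` is central
  have hcen : ∀ y ∈ P, y * tau 0 1 = tau 0 1 * y := by
    obtain ⟨τ, hτ, hτP⟩ := fixed_inv hq (fun g hg => hG g (hstG B1 (hP.le hg))) hP.pg
    have h2 : ∀ y ∈ P, τ * y = y * τ := fun y hy => by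
      have h3 := hτP y hy
      have h4 : y * τ = τ * y := by
        calc y * τ = y * τ * y⁻¹ * y := by group
          _ = τ * y := by rw [h3]
      exact h4.symm
    have h5 := eq_z hq hσ hτ (h2 _ hzP) (h2 _ hσP)
    rw [h5] at h2
    exact fun y hy => (h2 y hy).symm
  obtain ⟨A, hA⟩ := hG f hfG
  have hτ' : f * tau 0 1 * f⁻¹ ∈ invs K := by
    rw [hA]
    exact conj_invs hq A (mem_invs.2 ⟨0, 1, rfl⟩)
  have hcomm' : ∀ y ∈ P', f * tau 0 1 * f⁻¹ * y = y * (f * tau 0 1 * f⁻¹) := by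
    intro y hy
    have h3 := hcen _ ((hf y).1 hy)
    calc f * tau 0 1 * f⁻¹ * y = f * (tau 0 1 * (f⁻¹ * y * f)) * f⁻¹ := by group
      _ = f * (f⁻¹ * y * f * tau 0 1) * f⁻¹ := by rw [h3]
      _ = y * (f * tau 0 1 * f⁻¹) := by group
  have h6 := eq_z hq hσ hτ' (hcomm' _ hzP') (hcomm' _ hσP')
  have h7 : f * tau 0 1 = tau 0 1 * f := by
    calc f * tau 0 1 = f * tau 0 1 * f⁻¹ * f := by group
      _ = tau 0 1 * f := by rw [h6]
  -- the case `u ↦ w u`
  have key : ∀ f w, MulL Q f w → f⁻¹ * σ * f ∈ P → ∃ g ∈ P, MulL Q g (w * w) := by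
    intro f w hfw hfP
    refine ⟨σ * (f⁻¹ * σ * f), P.mul_mem hσP hfP, ?_⟩
    have h8 := hσL.mul_inv ((hfw.inv.mul_inv hσL).mul_mul hfw)
    have h9 : 1 / (w⁻¹ * 1 / w) = w * w := by
      have := hfw.ne
      field_simp
    rwa [h9] at h8
  have hcomm : glPerm A * tau 0 1 = tau 0 1 * glPerm A := by rw [← hA]; exact h7
  obtain ⟨w, hw | hw⟩ := comm_cases Q hzL A hcomm
  · rw [← hA] at hw
    exact ⟨f, w, hw, hBf, key f w hw ((hf σ).1 hσP')⟩
  · rw [← hA] at hw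
    refine ⟨f * σ, w / 1, hw.mul_inv hσL, ?_, key _ _ (hw.mul_inv hσL) ?_⟩
    · have h5 : (⇑(f * σ) : OnePoint K → OnePoint K) = f ∘ σ := rfl
      rw [h5, ← Finset.image_image, (mem_stb.1 (hP.le hσP)).2]
      exact hBf
    · have h8 : (f * σ)⁻¹ * σ * (f * σ) = σ⁻¹ * (f⁻¹ * σ * f) * σ := by group
      rw [h8]
      exact P.mul_mem (P.mul_mem (P.inv_mem hσP) ((hf σ).1 hσP')) hσP

include Q in
/-- at most two blocks are invariant under the four-group -/
theorem two_blocks [Fintype L] {G : Subgroup (Equiv.Perm (OnePoint K))}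
    {𝓑 : Finset (Finset (OnePoint K))}
    (hq : Fintype.card K % 4 = 3) (hG : ∀ g ∈ G, ∃ A : GL (Fin 2) K, g = glPerm A)
    (htr : ∀ B ∈ 𝓑, ∀ B' ∈ 𝓑, ∃ g ∈ G, B' = B.image g) {σ : Equiv.Perm (OnePoint K)}
    (hσ : IsMul σ (-1)) {B1 B2 B3 : Finset (OnePoint K)} (hB1 : B1 ∈ 𝓑) (hB2 : B2 ∈ 𝓑)
    (hB3 : B3 ∈ 𝓑) (hz1 : tau 0 1 ∈ stb G B1) (hσ1 : σ ∈ stb G B1)
    (hz2 : tau 0 1 ∈ stb G B2) (hσ2 : σ ∈ stb G B2)
    (hz3 : tau 0 1 ∈ stb G B3) (hσ3 : σ ∈ stb G B3) : B1 = B2 ∨ B1 = B3 ∨ B2 = B3 := by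
  have hσL := sigma_invL Q hσ
  have hzL := tau_mulL Q
  have hσσ : σ * σ = 1 := hσL.sq
  have hzz : tau (0 : K) 1 * tau 0 1 = 1 := by ext x : 1; exact tau_tau 0 1 x
  have hzσ : tau (0 : K) 1 * σ = σ * tau 0 1 := by
    have h1 := hzL.mul_inv hσL
    have h2 := hσL.mul_mul hzL
    have h3 : InvL Q (σ * tau 0 1) (Q.θ * 1) := by
      refine ⟨mul_ne_zero (theta_ne Q) one_ne_zero, fun u hu => ?_⟩
      rw [h2.eq u hu, ← Q.phi_smul (neg_ne_zero.2 (one_ne_zero (α := K)))]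
      congr 1
      have h4 := theta_sq Q
      have h5 := theta_ne Q
      rw [map_neg, map_one]
      field_simp
      linear_combination -h4
    exact h1.ext h3
  obtain ⟨P, hP, hWP⟩ := exists_syl (Q := four _ _ hzz hσσ hzσ) (H := stb G B1) (by
    intro g hg
    rcases hg with h | h | h | h
    · rw [h]; exact (stb G B1).one_mem
    · rw [h]; exact hz1
    · rw [h]; exact hσ1
    · rw [h]; exact (stb G B1).mul_mem hz1 hσ1) (four_pg hzz hσσ hzσ)
  have hzP : tau (0 : K) 1 ∈ P := hWP (Or.inr (Or.inl rfl))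
  have hσP : σ ∈ P := hWP (Or.inr (Or.inr (Or.inl rfl)))
  obtain ⟨f2, w2, hf2, hBf2, g2, hg2, hgw2⟩ := rel Q hq hG htr hσ hB1 hB2 hz2 hσ2 hP hzP hσP
  obtain ⟨f3, w3, hf3, hBf3, g3, hg3, hgw3⟩ := rel Q hq hG htr hσ hB1 hB3 hz3 hσ3 hP hzP hσP
  have hstab : ∀ g ∈ P, B1.image g = B1 := fun g hg => (mem_stb.1 (hP.le hg)).2
  by_cases h2 : Units.mk0 w2 hf2.ne ∈ torC Q P
  · left
    obtain ⟨g, hg, h⟩ := h2
    rw [hBf2, hf2.ext h, hstab g hg]
  by_cases h3 : Units.mk0 w3 hf3.ne ∈ torC Q P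
  · right; left
    obtain ⟨g, hg, h⟩ := h3
    rw [hBf3, hf3.ext h, hstab g hg]
  right; right
  obtain ⟨g, hg, h⟩ := cyc (torC Q P) (x := Units.mk0 w2 hf2.ne) (y := Units.mk0 w3 hf3.ne)
    ⟨g2, hg2, hgw2⟩ ⟨g3, hg3, hgw3⟩ h2 h3
  have h4 := hf2.mul h
  have h5 : w2 * (((Units.mk0 w2 hf2.ne)⁻¹ * Units.mk0 w3 hf3.ne : Lˣ) : L) = w3 := by
    rw [Units.val_mul, Units.val_inv_eq_inv_val, Units.val_mk0, Units.val_mk0,
      mul_inv_cancel_left₀ hf2.ne]
  rw [h5] at h4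
  have h6 : f3 = f2 * g := hf3.ext h4
  have h7 : (⇑(f2 * g) : OnePoint K → OnePoint K) = f2 ∘ g := rfl
  rw [hBf3, h6, h7, ← Finset.image_image, hstab g hg]
  exact hBf2

end

end Pool.Agent.N86.S9
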