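import Pool.Agent.N86.S9.Tor

/-!
# The involutions without fixed points, if `q ≡ 3 (mod 4)`
-/

set_option autoImplicit false

namespace Pool.Agent.N86.S9

open Finset Matrix Pool.Agent.N86.S6 Pool.Agent.N86.S4 Pool.Agent.N86.S46 Pool.Agent.N86.S7

section
variable {K : Type*} [Field K] [DecidableEq K]

lemma tau_congr {α : K} {s t : Kˣ} (h : (s : K) ^ 2 = (t : K) ^ 2) : tau α s = tau α t := by
  ext x : 1
  induction x using OnePoint.rec with
  | infty => rw [tau_infty, tau_infty]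
  | coe x =>
    by_cases hx : x = α
    · rw [hx, tau_coe_self, tau_coe_self]
    · rw [tau_coe α s x hx, tau_coe α t x hx, h]

variable [Fintype K]

lemma neg_one_nonsquare (hq : Fintype.card K % 4 = 3) : ¬ IsSquare (-1 : K) := by
  rw [FiniteField.isSquare_neg_one_iff]
  omega

lemma char_ne (hq : Fintype.card K % 4 = 3) : ringChar K ≠ 2 := by
  intro e
  have h2 : (2 : K) ≠ 0 := two_ne_zero_of_odd (by rw [Nat.odd_iff]; omega)
  apply h2
  have h3 := (ringChar.spec K 2).2 (by rw [e])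
  exact_mod_cast h3

lemma invs_of (hq : Fintype.card K % 4 = 3) (A : GL (Fin 2) K)
    (h1 : ∀ x, glPerm A (glPerm A x) = x) (h2 : ∀ x, glPerm A x ≠ x) : glPerm A ∈ invs K := by
  have hdet : A 0 0 * A 1 1 - A 0 1 * A 1 0 ≠ 0 := by
    have h1 := A.det_ne_zero
    rwa [Matrix.det_fin_two] at h1
  have hI := h2 OnePoint.infty
  have h10 : A 1 0 ≠ 0 := by
    intro h
    rw [glPerm_infty, if_pos h] at hI
    exact hI rfl
  have h3 := h1 OnePoint.infty
  rw [glPerm_infty, if_neg h10] at h3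
  have h11 : A 1 1 = -A 0 0 := by
    rw [glPerm_coe] at h3
    by_contra hcon
    rw [if_neg] at h3
    · exact OnePoint.coe_ne_infty _ h3
    · intro h4
      apply hcon
      rw [mul_div_cancel₀ _ h10] at h4
      linear_combination h4
  rw [h11] at hdet
  have h4 : ¬ IsSquare (A 0 0 ^ 2 + A 0 1 * A 1 0) := by
    rintro ⟨r, hr⟩
    have hr0 : r ≠ 0 := by
      rintro rfl
      apply hdet
      linear_combination -hr
    apply h2 (((A 0 0 + r) / A 1 0 : K) : OnePoint K)
    have h5 : A 1 0 * ((A 0 0 + r) / A 1 0) + A 1 1 = r := by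
      rw [mul_div_cancel₀ _ h10, h11]; ring
    rw [glPerm_coe, h5, if_neg hr0, OnePoint.coe_eq_coe]
    field_simp
    linear_combination hr
  have h5 := mul_square (char_ne hq) (neg_one_nonsquare hq) h4
  obtain ⟨s, hs⟩ := h5
  have hs0 : s ≠ 0 := by
    rintro rfl
    apply hdet
    linear_combination hs
  rw [invs, Finset.mem_image]
  refine ⟨(A 0 0 / A 1 0, Units.mk0 (s / A 1 0) (div_ne_zero hs0 h10)), Finset.mem_univ _, ?_⟩
  ext x : 1
  induction x using OnePoint.rec with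
  | infty => rw [tau_infty, glPerm_infty, if_neg h10]
  | coe x =>
    by_cases hx : x = A 0 0 / A 1 0
    · rw [hx, tau_coe_self, glPerm_coe, if_pos]
      rw [mul_div_cancel₀ _ h10, h11]; ring
    · have hx' : A 1 0 * x + A 1 1 ≠ 0 := by
        intro h
        apply hx
        rw [eq_div_iff h10]
        rw [h11] at h
        linear_combination h
      have hx'' : x - A 0 0 / A 1 0 ≠ 0 := sub_ne_zero.2 hx
      rw [tau_coe _ _ x hx, glPerm_coe, if_neg hx', OnePoint.coe_eq_coe, Units.val_mk0]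
      have h6 : x - A 0 0 / A 1 0 = (A 1 0 * x + A 1 1) / A 1 0 := by
        rw [h11]; field_simp; ring
      rw [h6]
      have h7 : (s / A 1 0) ^ 2 / ((A 1 0 * x + A 1 1) / A 1 0) =
          s * s / (A 1 0 * (A 1 0 * x + A 1 1)) := by
        field_simp
      rw [h7, ← hs]
      rw [h11] at hx' ⊢
      field_simp
      ring

lemma mem_invs {g : Equiv.Perm (OnePoint K)} : g ∈ invs K ↔ ∃ (α : K) (s : Kˣ), tau α s = g := by
  rw [invs, Finset.mem_image]
  constructor
  · rintro ⟨⟨α, s⟩, -, h⟩; exact ⟨α, s, h⟩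
  · rintro ⟨α, s, h⟩; exact ⟨(α, s), Finset.mem_univ _, h⟩

lemma tau_free' (hq : Fintype.card K % 4 = 3) (α : K) (s : Kˣ) (x : OnePoint K) :
    tau α s x ≠ x := by
  intro h
  obtain ⟨y, -, hy⟩ := tau_fixed α s x h
  apply neg_one_nonsquare hq
  refine ⟨(y - α) / s, ?_⟩
  have := s.ne_zero
  field_simp
  linear_combination -hy

lemma conj_invs (hq : Fintype.card K % 4 = 3) (A : GL (Fin 2) K) {τ : Equiv.Perm (OnePoint K)}
    (hτ : τ ∈ invs K) : glPerm A * τ * (glPerm A)⁻¹ ∈ invs K := by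
  obtain ⟨α, s, rfl⟩ := mem_invs.1 hτ
  have hinv : ∀ y, (glPerm A)⁻¹ (glPerm A y) = y := fun y => (glPerm A).symm_apply_apply y
  have hinv' : ∀ y, glPerm A ((glPerm A)⁻¹ y) = y := fun y => (glPerm A).apply_symm_apply y
  have h1 : tau α s = glPerm (SpecialLinearGroup.toGL (tauMat α s)) := rfl
  have h2 : (glPerm A)⁻¹ = glPerm A⁻¹ := by
    rw [inv_eq_iff_mul_eq_one, ← glPerm_mul, mul_inv_cancel]
    ext x : 1
    exact one_smul (GL (Fin 2) K) x
  have h3 : glPerm A * tau α s * (glPerm A)⁻¹ =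
      glPerm (A * SpecialLinearGroup.toGL (tauMat α s) * A⁻¹) := by
    rw [glPerm_mul, glPerm_mul, ← h1, ← h2]
  rw [h3]
  refine invs_of hq _ ?_ ?_
  · intro x
    rw [← h3]
    simp only [Equiv.Perm.mul_apply]
    rw [hinv, tau_tau, hinv']
  · intro x h
    rw [← h3] at h
    simp only [Equiv.Perm.mul_apply] at h
    apply tau_free' hq α s ((glPerm A)⁻¹ x)
    have h4 : (glPerm A)⁻¹ (glPerm A (tau α s ((glPerm A)⁻¹ x))) = (glPerm A)⁻¹ x := by rw [h]
    rwa [hinv] at h4

lemma odd_invs (hq : Fintype.card K % 4 = 3) : ¬ 2 ∣ (invs K).card := by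
  classical
  have h1 := card_invs K
  have h2 : 2 * (invs K).card ≤ Fintype.card K * (Fintype.card K - 1) := by
    have h3 : (univ : Finset (K × Kˣ)).card = Fintype.card K * (Fintype.card K - 1) := by
      rw [Finset.card_univ, Fintype.card_prod, Fintype.card_units]
    rw [← h3]
    refine Finset.mul_card_image_le_card _ 2 ?_
    intro τ hτ
    obtain ⟨α, s, rfl⟩ := mem_invs.1 hτ
    have h4 : ({(α, s), (α, -s)} : Finset (K × Kˣ)) ⊆
        (univ : Finset (K × Kˣ)).filter (fun x => tau x.1 x.2 = tau α s) := by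
      intro y hy
      rw [Finset.mem_insert, Finset.mem_singleton] at hy
      rw [Finset.mem_filter]
      refine ⟨Finset.mem_univ _, ?_⟩
      rcases hy with rfl | rfl
      · rfl
      · exact tau_congr (by rw [Units.val_neg]; ring)
    refine le_trans ?_ (Finset.card_le_card h4)
    rw [Finset.card_pair]
    intro h
    have h5 : (s : K) = -(s : K) := by
      have := congrArg (fun y : K × Kˣ => (y.2 : K)) h
      simpa using this
    have h20 : (2 : K) ≠ 0 := two_ne_zero_of_odd (by rw [Nat.odd_iff]; omega)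
    have h6 : 2 * (s : K) = 0 := by linear_combination h5
    rcases mul_eq_zero.1 h6 with h7 | h7
    · exact h20 h7
    · exact s.ne_zero h7
  intro h3
  obtain ⟨m, hm⟩ := h3
  obtain ⟨n, hn⟩ : ∃ n, Fintype.card K = 4 * n + 3 := ⟨Fintype.card K / 4, by omega⟩
  rw [hn] at h1 h2
  have h4 : 4 * n + 3 - 1 = 4 * n + 2 := by omega
  rw [h4] at h1 h2
  have h5 : (4 * n + 3) * (4 * n + 2) = 4 * (4 * n ^ 2 + 5 * n + 1) + 2 := by ring
  rw [h5] at h1 h2
  omega

/-- a `2`-group of projective transformations centralizes an involution without fixed points -/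
lemma fixed_inv (hq : Fintype.card K % 4 = 3) {Q : Subgroup (Equiv.Perm (OnePoint K))}
    (hQG : ∀ g ∈ Q, ∃ A : GL (Fin 2) K, g = glPerm A) (hQ : IsPGroup 2 Q) :
    ∃ τ ∈ invs K, ∀ g ∈ Q, g * τ * g⁻¹ = τ := by
  letI act : MulAction Q {τ : Equiv.Perm (OnePoint K) // τ ∈ invs K} :=
    { smul := fun g τ => ⟨g.1 * τ.1 * g.1⁻¹, by
        obtain ⟨A, hA⟩ := hQG g.1 g.2
        rw [hA]
        exact conj_invs hq A τ.2⟩
      one_smul := fun τ => Subtype.ext (by
        show (1 : Equiv.Perm (OnePoint K)) * τ.1 * (1 : Equiv.Perm (OnePoint K))⁻¹ = τ.1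
        group)
      mul_smul := fun g h τ => Subtype.ext (by
        show (g.1 * h.1) * τ.1 * (g.1 * h.1)⁻¹ = g.1 * (h.1 * τ.1 * h.1⁻¹) * g.1⁻¹
        group) }
  have : Fact (Nat.Prime 2) := ⟨Nat.prime_two⟩
  have h1 : ¬ 2 ∣ Nat.card {τ : Equiv.Perm (OnePoint K) // τ ∈ invs K} := by
    rw [Nat.card_eq_fintype_card, Fintype.card_coe]
    exact odd_invs hq
  obtain ⟨τ, hτ⟩ := hQ.nonempty_fixed_point_of_prime_not_dvd_card
    {τ : Equiv.Perm (OnePoint K) // τ ∈ invs K} h1
  refine ⟨τ.1, τ.2, fun g hg => ?_⟩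
  exact congrArg Subtype.val (hτ ⟨g, hg⟩)

/-- an involution without fixed points which commutes with `x ↦ - 1 / x` and `x ↦ - x` -/
lemma eq_z (hq : Fintype.card K % 4 = 3) {σ τ : Equiv.Perm (OnePoint K)} (hσ : IsMul σ (-1))
    (hτ : τ ∈ invs K) (h1 : τ * tau 0 1 = tau 0 1 * τ) (h2 : τ * σ = σ * τ) : τ = tau 0 1 := by
  obtain ⟨α, s, rfl⟩ := mem_invs.1 hτ
  have h20 : (2 : K) ≠ 0 := two_ne_zero_of_odd (by rw [Nat.odd_iff]; omega)
  have h3 := congrArg (fun g : Equiv.Perm (OnePoint K) => g OnePoint.infty) h2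
  simp only [Equiv.Perm.mul_apply] at h3
  rw [hσ.inf, tau_infty, hσ.coe, OnePoint.coe_eq_coe] at h3
  have hα : α = 0 := by
    have : 2 * α = 0 := by linear_combination h3
    exact (mul_eq_zero.1 this).resolve_left h20
  subst hα
  have h4 := congrArg (fun g : Equiv.Perm (OnePoint K) => g ((1 : K) : OnePoint K)) h1
  simp only [Equiv.Perm.mul_apply] at h4
  have hs := s.ne_zero
  have hs2 : -((s : K) ^ 2) ≠ 0 := neg_ne_zero.2 (pow_ne_zero 2 hs)
  have e1 : tau (0 : K) 1 ((1 : K) : OnePoint K) = ((-1 : K) : OnePoint K) := by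
    rw [tau_coe 0 1 1 one_ne_zero]; congr 1; simp
  have e2 : tau (0 : K) s ((-1 : K) : OnePoint K) = (((s : K) ^ 2 : K) : OnePoint K) := by
    rw [tau_coe 0 s (-1) (neg_ne_zero.2 one_ne_zero)]; congr 1
    rw [sub_zero, div_neg, div_one, zero_sub, neg_neg]
  have e3 : tau (0 : K) s ((1 : K) : OnePoint K) = ((-((s : K) ^ 2) : K) : OnePoint K) := by
    rw [tau_coe 0 s 1 one_ne_zero]; congr 1
    rw [sub_zero, div_one, zero_sub]
  have e4 : tau (0 : K) 1 ((-((s : K) ^ 2) : K) : OnePoint K) =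
      ((((s : K) ^ 2)⁻¹ : K) : OnePoint K) := by
    rw [tau_coe 0 1 _ hs2]; congr 1
    rw [Units.val_one, one_pow, sub_zero, zero_sub, div_neg, neg_neg, one_div]
  rw [e1, e2, e3, e4, OnePoint.coe_eq_coe] at h4
  apply tau_congr
  rw [Units.val_one, one_pow]
  have h5 : ((s : K) ^ 2) * ((s : K) ^ 2) = 1 := by
    have h6 : ((s : K) ^ 2) * ((s : K) ^ 2) = ((s : K) ^ 2) * ((s : K) ^ 2)⁻¹ := by rw [← h4]
    rw [h6, mul_inv_cancel₀ (pow_ne_zero 2 hs)]
  rcases mul_self_eq_one_iff.1 h5 with h6 | h6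
  · exact h6
  · exfalso
    exact neg_one_nonsquare hq ⟨s, by rw [← h6, sq]⟩

end

end Pool.Agent.N86.S9
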