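import Pool.Agent.N86.S9.Pgl3Main

/-!
# Subgroups between `PSL(2, q)` and `PGL(2, q)`, `q` odd
-/

set_option autoImplicit false

namespace Pool.Agent.N86.S9

open Finset Matrix Pool.Agent.N86.S6 Pool.Agent.N86.S4 Pool.Agent.N86.S46 Pool.Agent.N86.S8

universe u

variable {K : Type u} [Field K] [DecidableEq K] [Fintype K]

lemma gl_of (hF : ringChar K ≠ 2) {G : Subgroup (Equiv.Perm (OnePoint K))}
    (hSL : ∀ A : SpecialLinearGroup (Fin 2) K, slPerm A ∈ G) {A0 : GL (Fin 2) K}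
    (hg0 : glPerm A0 ∈ G) (hA0 : ¬ IsSquare (A0.det : K)) : ∀ A : GL (Fin 2) K, glPerm A ∈ G := by
  intro A
  by_cases hA : IsSquare (A.det : K)
  · obtain ⟨S, hS⟩ := glPerm_square A hA
    rw [hS]; exact hSL S
  · have h1 : IsSquare ((A * A0⁻¹).det : K) := by
      have h3 : ((A * A0⁻¹).det : K) =
          ((A.det : K) * (A0.det : K)) * (((A0.det : K))⁻¹ * ((A0.det : K))⁻¹) := by
        rw [map_mul, map_inv, Units.val_mul, Units.val_inv_eq_inv_val]
        have h4 : (A0.det : K) ≠ 0 := A0.det.ne_zero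
        field_simp
      rw [h3]
      exact (mul_square hF hA hA0).mul ⟨_, rfl⟩
    obtain ⟨S, hS⟩ := glPerm_square (A * A0⁻¹) h1
    have h5 : glPerm A = glPerm (A * A0⁻¹) * glPerm A0 := by
      rw [← glPerm_mul, inv_mul_cancel_right]
    rw [h5, hS]
    exact G.mul_mem (hSL S) hg0

/-- a block-transitive group between `PSL(2, q)` and `PGL(2, q)` on a `6`-design with odd `λ` -/
theorem odd_none {k lam : ℕ} {𝓑 : Finset (Finset (OnePoint K))} (hD : IsDesign 6 k lam 𝓑)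
    (hlam : Odd lam) (hk6 : 6 < k) (hk : k < Fintype.card K + 1) (hq : Odd (Fintype.card K))
    {G : Subgroup (Equiv.Perm (OnePoint K))}
    (hSL : ∀ A : SpecialLinearGroup (Fin 2) K, slPerm A ∈ G)
    (hG : ∀ g ∈ G, ∃ A : GL (Fin 2) K, g = glPerm A)
    (hinv : ∀ g ∈ G, ∀ B ∈ 𝓑, B.image g ∈ 𝓑) {B0 : Finset (OnePoint K)} (hB0 : B0 ∈ 𝓑)
    (htr : ∀ B ∈ 𝓑, ∃ g ∈ G, B = B0.image g) {C : Finset (OnePoint K)} (hC : C.card = k)
    (hC' : C ∉ 𝓑) : Fintype.card K % 4 = 3 ∧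
      ∀ g ∈ G, ∃ A : SpecialLinearGroup (Fin 2) K, g = slPerm A := by
  rcases Nat.odd_mod_four_iff.1 (Nat.odd_iff.1 hq) with h4 | h4
  · exact absurd (between_none hD hlam hk6 hk h4 hSL hG hinv hB0 htr hC hC') id
  · refine ⟨h4, ?_⟩
    by_contra hcon
    push Not at hcon
    obtain ⟨g0, hg0, h⟩ := hcon
    obtain ⟨A0, rfl⟩ := hG g0 hg0
    have hA0 : ¬ IsSquare (A0.det : K) := by
      intro h1
      obtain ⟨S, hS⟩ := glPerm_square A0 h1
      exact h S hS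
    exact pgl3_none hD hlam hk6 h4 (gl_of (char_ne h4) hSL hg0 hA0) hG hinv hB0 htr hC hC'

end Pool.Agent.N86.S9
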