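import Pool.Agent.N86.S9.One

/-!
# `PGL(2, q)` is not block-transitive on a `6`-design with odd `λ`, if `q ≡ 1 (mod 4)`: the proof
-/

set_option autoImplicit false

namespace Pool.Agent.N86.S9

open Finset Matrix Pool.Agent.N86.S6 Pool.Agent.N86.S4 Pool.Agent.N86.S46

variable {K : Type*} [Field K] [DecidableEq K] [Fintype K]

omit [Fintype K] in
lemma slPerm_eq (A : SpecialLinearGroup (Fin 2) K) :
    slPerm A = glPerm (SpecialLinearGroup.toGL A) := rfl

/-- the maximal `2`-subgroups of the stabilizers contain `x ↦ c x` for a nonsquare `c` -/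
lemma nonsq {k lam : ℕ} {𝓑 : Finset (Finset (OnePoint K))} (hD : IsDesign 6 k lam 𝓑)
    (hlam : Odd lam) {G : Subgroup (Equiv.Perm (OnePoint K))}
    (hGL : ∀ A : GL (Fin 2) K, glPerm A ∈ G)
    (hinv : ∀ g ∈ G, ∀ B ∈ 𝓑, B.image g ∈ 𝓑)
    (htr : ∀ B ∈ 𝓑, ∀ B' ∈ 𝓑, ∃ g ∈ G, B' = B.image g)
    {i a : K} (hi : i ^ 2 = -1) (h2 : (2 : K) ≠ 0) {w : Equiv.Perm (OnePoint K)}
    (hw : IsInv w a) (ha : ¬ IsSquare a)
    {B : Finset (OnePoint K)} (hB : B ∈ 𝓑) {Q : Subgroup (Equiv.Perm (OnePoint K))}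
    (hQ : IsSyl Q (stb G B)) (hwQ : w ∈ Q) (hcases : ∀ g ∈ Q, ∃ c, IsMul g c ∨ IsInv g c) :
    ∃ g0 ∈ Q, ∃ c0, IsMul g0 c0 ∧ ¬ IsSquare c0 := by
  have hSL : ∀ A : SpecialLinearGroup (Fin 2) K, slPerm A ∈ G := fun A => hGL _
  obtain ⟨B', hB', hBa, hBb, -⟩ := exists_inv_block_two hD hlam (negP i hi) (invP i hi)
    (negP_negP i hi) (invP_invP i hi) (negP_invP i hi) (fun B hB => hinv _ (hSL _) B hB)
    (fun B hB => hinv _ (hSL _) B hB) (octa i) (octa_card i hi h2) (octa_neg i hi) (octa_inv i hi)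
  have hz1 : negP i hi * negP i hi = 1 := by ext x : 1; exact negP_negP i hi x
  have hw1 : invP i hi * invP i hi = 1 := by ext x : 1; exact invP_invP i hi x
  have hzw : negP i hi * invP i hi = invP i hi * negP i hi := by ext x : 1; exact negP_invP i hi x
  have hV := four_pg hz1 hw1 hzw
  obtain ⟨f, hf, hBf⟩ := htr B' hB' B hB
  have hle : cj f (four _ _ hz1 hw1 hzw) ≤ stb G B := by
    rw [hBf, stb_image hf]
    intro x hx
    rw [mem_cj] at hx ⊢
    have h1 : negP i hi ∈ stb G B' := ⟨hSL _, hBa⟩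
    have h3 : invP i hi ∈ stb G B' := ⟨hSL _, hBb⟩
    rcases hx with h | h | h | h
    · rw [h]; exact (stb G B').one_mem
    · rw [h]; exact h1
    · rw [h]; exact h3
    · rw [h]; exact (stb G B').mul_mem h1 h3
  obtain ⟨Q', hQ', hle'⟩ := exists_syl hle (hV.map _)
  obtain ⟨h, hh, hhQ⟩ := syl_conj hQ' hQ
  have hmem : ∀ v ∈ four _ _ hz1 hw1 hzw, h * f * v * (h * f)⁻¹ ∈ Q := by
    intro v hv
    rw [hhQ]
    apply hle'
    rw [mem_cj]
    have : f⁻¹ * (h⁻¹ * (h * f * v * (h * f)⁻¹) * h) * f = v := by group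
    rw [this]
    exact hv
  have hzz := hmem _ (Or.inr (Or.inl rfl))
  have hww := hmem _ (Or.inr (Or.inr (Or.inl rfl)))
  generalize h * f = F at hzz hww
  -- an involution `x ↦ d / x` with a fixed point
  have key : ∀ v ∈ Q, ∀ d, IsInv v d → ∀ y, v y = y → ∃ g0 ∈ Q, ∃ c0, IsMul g0 c0 ∧ ¬ IsSquare c0 := by
    intro v hv d hd y hy
    refine ⟨w * v, Q.mul_mem hwQ hv, _, hw.mul_inv hd, ?_⟩
    induction y using OnePoint.rec with
    | infty => rw [hd.inf] at hy; exact absurd hy.symm (OnePoint.infty_ne_coe _)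
    | coe y =>
      by_cases hy0 : y = 0
      · subst hy0
        rw [hd.zero] at hy; exact absurd hy (OnePoint.infty_ne_coe _)
      · rw [hd.coe y hy0, OnePoint.coe_eq_coe, div_eq_iff hy0] at hy
        rintro ⟨r, hr⟩
        apply ha
        refine ⟨r * y, ?_⟩
        rw [div_eq_iff hd.ne] at hr
        rw [hr, hy]
        ring
  -- an involution `x ↦ c x`
  have key2 : ∀ v : Equiv.Perm (OnePoint K), v * v = 1 → v ≠ 1 → ∀ c : K, IsMul v c →
      c = -1 := by
    intro v hv hv1 c hc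
    have h1 := hc.mul hc
    rw [hv] at h1
    have h3 := h1.inj IsMul.one
    rcases mul_self_eq_one_iff.1 h3 with h4 | h4
    · exfalso
      apply hv1
      rw [h4] at hc
      exact hc.ext IsMul.one
    · exact h4
  have hsq : ∀ v : Equiv.Perm (OnePoint K), v * v = 1 → (F * v * F⁻¹) * (F * v * F⁻¹) = 1 := by
    intro v hv
    have h1 : (F * v * F⁻¹) * (F * v * F⁻¹) = F * (v * v) * F⁻¹ := by group
    rw [h1, hv]; group
  have hne : ∀ v : Equiv.Perm (OnePoint K), v ≠ 1 → F * v * F⁻¹ ≠ 1 := by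
    intro v hv h1
    apply hv
    have h3 : v = F⁻¹ * (F * v * F⁻¹) * F := by group
    rw [h3, h1]; group
  have hz10 : negP i hi ≠ 1 := by
    intro e
    have h1 := negP_coe i hi 1
    rw [e] at h1
    have h3 : ((1 : K) : OnePoint K) = ((-1 : K) : OnePoint K) := h1
    rw [OnePoint.coe_eq_coe] at h3
    exact h2 (by linear_combination h3)
  have hw10 : invP i hi ≠ 1 := by
    intro e
    have h1 := invP_infty i hi
    rw [e] at h1
    exact OnePoint.infty_ne_coe _ h1
  have hFi : ∀ y, F⁻¹ (F y) = y := fun y => F.symm_apply_apply y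
  obtain ⟨c, hc | hc⟩ := hcases _ hzz
  · obtain ⟨d, hd | hd⟩ := hcases _ hww
    · exfalso
      have h1 := key2 _ (hsq _ hz1) (hne _ hz10) c hc
      have h3 := key2 _ (hsq _ hw1) (hne _ hw10) d hd
      rw [h1] at hc
      rw [h3] at hd
      have h4 := hc.ext hd
      have h5 : negP i hi = invP i hi := mul_left_cancel (mul_right_cancel h4)
      have h6 := invP_infty i hi
      rw [← h5, negP_infty i hi] at h6
      exact OnePoint.infty_ne_coe _ h6
    · refine key _ hww d hd (F ((1 : K) : OnePoint K)) ?_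
      rw [Equiv.Perm.mul_apply, Equiv.Perm.mul_apply, hFi,
        invP_coe i hi 1 one_ne_zero, inv_one]
  · refine key _ hzz c hc (F OnePoint.infty) ?_
    rw [Equiv.Perm.mul_apply, Equiv.Perm.mul_apply, hFi, negP_infty i hi]

omit [Fintype K] in
/-- the six points `∞, 0, x, -x, a / x, - a / x` -/
lemma six_facts {a x i : K} (hi : i ^ 2 = -1) (h2 : (2 : K) ≠ 0) (ha : ¬ IsSquare a)
    (ha0 : a ≠ 0) (hx : x ≠ 0) {z w : Equiv.Perm (OnePoint K)} (hz : IsMul z (-1))
    (hw : IsInv w a) :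
    ∃ S : Finset (OnePoint K), S.card = 6 ∧ S.image z = S ∧ S.image w = S ∧
      OnePoint.infty ∈ S ∧ ((0 : K) : OnePoint K) ∈ S ∧ (x : OnePoint K) ∈ S := by
  let S : Finset (OnePoint K) := {OnePoint.infty, ((0 : K) : OnePoint K), (x : OnePoint K),
    ((-x : K) : OnePoint K), ((a / x : K) : OnePoint K), ((-(a / x) : K) : OnePoint K)}
  have hax : a / x ≠ 0 := div_ne_zero ha0 hx
  have f1 : x ≠ -x := by
    intro e
    have : 2 * x = 0 := by linear_combination e
    rcases mul_eq_zero.1 this with h | h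
    · exact h2 h
    · exact hx h
  have f1' : a / x ≠ -(a / x) := by
    intro e
    have : 2 * (a / x) = 0 := by linear_combination e
    rcases mul_eq_zero.1 this with h | h
    · exact h2 h
    · exact hax h
  have f2 : x ≠ a / x := by
    intro e
    apply ha
    rw [eq_div_iff hx] at e
    exact ⟨x, e.symm⟩
  have f3 : x ≠ -(a / x) := by
    intro e
    apply ha
    refine ⟨i * x, ?_⟩
    have h1 : x * x = -a := by
      have : x * x = -(a / x) * x := by rw [← e]
      rw [this]; field_simp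
    linear_combination h1 - x ^ 2 * hi
  have f4 : -x ≠ a / x := fun e => f3 (by linear_combination -e)
  have f5 : -x ≠ -(a / x) := fun e => f2 (neg_injective e)
  have c1 : ∀ y : K, (OnePoint.infty : OnePoint K) ≠ (y : OnePoint K) :=
    fun y => (OnePoint.coe_ne_infty y).symm
  have hcard : S.card = 6 := by
    show ({OnePoint.infty, ((0 : K) : OnePoint K), (x : OnePoint K),
      ((-x : K) : OnePoint K), ((a / x : K) : OnePoint K),
      ((-(a / x) : K) : OnePoint K)} : Finset (OnePoint K)).card = 6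
    rw [Finset.card_insert_of_notMem, Finset.card_insert_of_notMem, Finset.card_insert_of_notMem,
      Finset.card_insert_of_notMem, Finset.card_insert_of_notMem, Finset.card_singleton]
    · rw [Finset.mem_singleton, OnePoint.coe_eq_coe]; exact f1'
    · simp only [Finset.mem_insert, Finset.mem_singleton, OnePoint.coe_eq_coe, not_or]
      exact ⟨f4, f5⟩
    · simp only [Finset.mem_insert, Finset.mem_singleton, OnePoint.coe_eq_coe, not_or]
      exact ⟨f1, f2, f3⟩
    · simp only [Finset.mem_insert, Finset.mem_singleton, OnePoint.coe_eq_coe, not_or]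
      exact ⟨hx.symm, (neg_ne_zero.2 hx).symm, hax.symm, (neg_ne_zero.2 hax).symm⟩
    · simp only [Finset.mem_insert, Finset.mem_singleton, not_or]
      exact ⟨c1 _, c1 _, c1 _, c1 _, c1 _⟩
  have hmS : ∀ y, y ∈ S ↔ y = OnePoint.infty ∨ y = ((0 : K) : OnePoint K) ∨ y = (x : OnePoint K) ∨
      y = ((-x : K) : OnePoint K) ∨ y = ((a / x : K) : OnePoint K) ∨
      y = ((-(a / x) : K) : OnePoint K) := by
    intro y
    simp only [S, Finset.mem_insert, Finset.mem_singleton]
  refine ⟨S, hcard, ?_, ?_, (hmS _).2 (Or.inl rfl), (hmS _).2 (Or.inr (Or.inl rfl)),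
    (hmS _).2 (Or.inr (Or.inr (Or.inl rfl)))⟩
  · apply image_eq_of_maps
    intro y hy
    rw [hmS] at hy ⊢
    rcases hy with rfl | rfl | rfl | rfl | rfl | rfl
    · left; exact hz.inf
    · right; left; rw [hz.coe, mul_zero]
    · right; right; right; left; rw [hz.coe, neg_one_mul]
    · right; right; left; rw [hz.coe, neg_one_mul, neg_neg]
    · right; right; right; right; right; rw [hz.coe, neg_one_mul]
    · right; right; right; right; left; rw [hz.coe, neg_one_mul, neg_neg]
  · apply image_eq_of_maps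
    intro y hy
    rw [hmS] at hy ⊢
    rcases hy with rfl | rfl | rfl | rfl | rfl | rfl
    · right; left; exact hw.inf
    · left; exact hw.zero
    · right; right; right; right; left; exact hw.coe x hx
    · right; right; right; right; right
      rw [hw.coe _ (neg_ne_zero.2 hx), div_neg]
    · right; right; left
      rw [hw.coe _ hax, div_div_cancel₀ ha0]
    · right; right; right; left
      rw [hw.coe _ (neg_ne_zero.2 hax), div_neg, div_div_cancel₀ ha0]

/-- **`PGL(2, q)` is not block-transitive on a `6`-design with odd `λ`, if `q ≡ 1 (mod 4)`.** -/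
theorem pgl_none {k lam : ℕ} {𝓑 : Finset (Finset (OnePoint K))} (hD : IsDesign 6 k lam 𝓑)
    (hlam : Odd lam) (hk : k < Fintype.card K + 1) (hq : Fintype.card K % 4 = 1)
    {G : Subgroup (Equiv.Perm (OnePoint K))}
    (hGL : ∀ A : GL (Fin 2) K, glPerm A ∈ G) (hG : ∀ g ∈ G, ∃ A : GL (Fin 2) K, g = glPerm A)
    (hinv : ∀ g ∈ G, ∀ B ∈ 𝓑, B.image g ∈ 𝓑)
    (htr : ∀ B ∈ 𝓑, ∀ B' ∈ 𝓑, ∃ g ∈ G, B' = B.image g) : False := by
  have h2 : (2 : K) ≠ 0 := two_ne_zero_of_odd (by rw [Nat.odd_iff]; omega)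
  have hF : ringChar K ≠ 2 := by
    intro e
    apply h2
    have h3 := (ringChar.spec K 2).2 (by rw [e])
    exact_mod_cast h3
  obtain ⟨i, hi⟩ := exists_i (K := K) (by omega)
  obtain ⟨a, ha⟩ := FiniteField.exists_nonsquare hF
  have ha0 : a ≠ 0 := by rintro rfl; exact ha ⟨0, by rw [mul_zero]⟩
  obtain ⟨Az, hz⟩ := exists_isMul (neg_ne_zero.2 (one_ne_zero (α := K)))
  obtain ⟨Aw, hw⟩ := exists_isInv ha0
  have hzG : glPerm Az ∈ G := hGL Az
  have hwG : glPerm Aw ∈ G := hGL Aw
  generalize glPerm Az = z at hz hzG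
  generalize glPerm Aw = w at hw hwG
  have hzz : z * z = 1 := by
    have h1 := hz.mul hz
    rw [neg_mul_neg, one_mul] at h1
    exact h1.ext IsMul.one
  have hww : w * w = 1 := hw.sq
  have hzw : z * w = w * z := by
    have h1 := hz.mul_isInv hw
    have h3 := hw.mul_isMul hz
    have h4 : -1 * a = a / -1 := by rw [div_neg, div_one, neg_one_mul]
    rw [h4] at h1
    exact h1.ext h3
  have hWpg := four_pg hzz hww hzw
  have hzW : z ∈ four z w hzz hww hzw := Or.inr (Or.inl rfl)
  have hwW : w ∈ four z w hzz hww hzw := Or.inr (Or.inr (Or.inl rfl))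
  -- the invariant blocks
  have hblock : ∀ x : K, x ≠ 0 → ∃ B ∈ 𝓑, four z w hzz hww hzw ≤ stb G B ∧
      OnePoint.infty ∈ B ∧ ((0 : K) : OnePoint K) ∈ B ∧ (x : OnePoint K) ∈ B := by
    intro x hx
    obtain ⟨S, hS, hSz, hSw, hS1, hS2, hS3⟩ := six_facts hi h2 ha ha0 hx hz hw
    obtain ⟨B, hB, hBz, hBw, hSB⟩ := exists_inv_block_two hD hlam z w
      (fun x => by rw [← Equiv.Perm.mul_apply, hzz]; rfl)
      (fun x => by rw [← Equiv.Perm.mul_apply, hww]; rfl)
      (fun x => by rw [← Equiv.Perm.mul_apply, hzw]; rfl)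
      (fun B hB => hinv _ hzG B hB) (fun B hB => hinv _ hwG B hB) S hS hSz hSw
    refine ⟨B, hB, ?_, hSB hS1, hSB hS2, hSB hS3⟩
    have h1 : z ∈ stb G B := ⟨hzG, hBz⟩
    have h3 : w ∈ stb G B := ⟨hwG, hBw⟩
    intro g hg
    rcases hg with h | h | h | h
    · rw [h]; exact (stb G B).one_mem
    · rw [h]; exact h1
    · rw [h]; exact h3
    · rw [h]; exact (stb G B).mul_mem h1 h3
  obtain ⟨B1, hB1, hWB1, hi1, h01, -⟩ := hblock 1 one_ne_zero
  obtain ⟨P, hP, hWP⟩ := exists_syl hWB1 hWpg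
  have hstG : ∀ B, stb G B ≤ G := fun B g hg => hg.1
  have hPcases := mem_cases hG hq hi h2 hz hw ha (hP.le.trans (hstG B1)) hP.pg (hWP hzW) (hWP hwW)
  have hPfull := nonsq hD hlam hGL hinv htr hi h2 hw ha hB1 hP (hWP hwW) hPcases
  have huniq : ∀ B ∈ 𝓑, ∀ Q, IsSyl Q (stb G B) → four z w hzz hww hzw ≤ Q → Q = P := by
    intro B hB Q hQ hWQ
    have hQcases := mem_cases hG hq hi h2 hz hw ha (hQ.le.trans (hstG B)) hQ.pg (hWQ hzW) (hWQ hwW)
    have hQfull := nonsq hD hlam hGL hinv htr hi h2 hw ha hB hQ (hWQ hwW) hQcases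
    exact le_antisymm (le_of_full hw hQ.pg (hWQ hwW) hQcases (hWP hwW) hPfull)
      (le_of_full hw hP.pg (hWP hwW) hPcases (hWQ hwW) hQfull)
  -- the normalizer
  have hE : ∀ g ∈ P, (E0 K).image g = E0 K := by
    intro g hg
    obtain ⟨c, hc | hc⟩ := hPcases g hg
    · exact hc.image
    · exact hc.image
  have hNmul : ∀ g c, IsMul g c → (∀ x, x ∈ P ↔ g⁻¹ * x * g ∈ P) → g ∈ P := by
    intro g c hc hn
    have h1 := (hn w).1 (hWP hwW)
    have h3 : IsInv (g⁻¹ * w * g) (c⁻¹ * a / c) := (hc.inv.mul_isInv hw).mul_isMul hc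
    have h4 := hw.mul_inv h3
    have h5 : a / (c⁻¹ * a / c) = c ^ 2 := by
      have := hc.ne
      field_simp
    rw [h5] at h4
    obtain ⟨n, hn'⟩ := one_of_pow hP.pg (P.mul_mem (hWP hwW) h1) h4
    obtain ⟨g0, hg0, c0, hgc0, hc0⟩ := hPfull
    refine full hg0 hgc0 hc0 hc (n := n + 1) ?_
    rw [pow_succ 2 n, mul_comm (2 ^ n) 2, pow_mul]
    exact hn'
  have hN : ∀ g ∈ G, (∀ x, x ∈ P ↔ g⁻¹ * x * g ∈ P) → g ∈ P := by
    intro g hg hn
    have himg : ∀ v ∈ P, ((E0 K).image g).image v = (E0 K).image g := by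
      intro v hv
      have h1 := hE _ ((hn v).1 hv)
      have h3 : (⇑(g⁻¹ * v * g) : OnePoint K → OnePoint K) = (⇑g⁻¹) ∘ (v ∘ g) := rfl
      have h5 : (g : OnePoint K → OnePoint K) ∘ (⇑g⁻¹ : OnePoint K → OnePoint K) = id := by
        funext x; simp
      rw [h3, ← Finset.image_image] at h1
      have h6 : (((E0 K).image (v ∘ g)).image (⇑g⁻¹ : OnePoint K → OnePoint K)).image g =
          (E0 K).image g := by rw [h1]
      rw [Finset.image_image (f := (⇑g⁻¹ : OnePoint K → OnePoint K)), h5, Finset.image_id] at h6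
      rw [Finset.image_image]
      exact h6
    have h1 := pair_unique hi h2 hz hw ha (s := (E0 K).image g)
      (by rw [Finset.card_image_of_injective _ g.injective, card_E0])
      (himg z (hWP hzW)) (himg w (hWP hwW))
    obtain ⟨A, rfl⟩ := hG g hg
    obtain ⟨c, hc | hc⟩ := pres A h1
    · exact hNmul _ c hc hn
    · have h3 : glPerm A * w ∈ P := by
        refine hNmul _ _ (hc.mul_inv hw) fun x => ?_
        have h4 : (glPerm A * w)⁻¹ * x * (glPerm A * w) =
            w⁻¹ * ((glPerm A)⁻¹ * x * glPerm A) * w := by group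
        rw [h4, hn x]
        constructor
        · intro h
          exact P.mul_mem (P.mul_mem (P.inv_mem (hWP hwW)) h) (hWP hwW)
        · intro h
          have h5 : (glPerm A)⁻¹ * x * glPerm A =
              w * (w⁻¹ * ((glPerm A)⁻¹ * x * glPerm A) * w) * w⁻¹ := by group
          rw [h5]
          exact P.mul_mem (P.mul_mem (hWP hwW) h) (P.inv_mem (hWP hwW))
      have h4 : glPerm A = glPerm A * w * w := by rw [mul_assoc, hww, mul_one]
      rw [h4]
      exact P.mul_mem h3 (hWP hwW)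
  -- the contradiction
  have hall : ∀ y : OnePoint K, y ∈ B1 := by
    intro y
    induction y using OnePoint.rec with
    | infty => exact hi1
    | coe y =>
      by_cases hy : y = 0
      · rw [hy]; exact h01
      · obtain ⟨B, hB, hWB, -, -, hyB⟩ := hblock y hy
        have h1 := unique_block htr hWpg huniq hN hB hB1 hWB hWB1
        rw [← h1]; exact hyB
  have h1 : B1 = Finset.univ := by
    ext y
    exact ⟨fun _ => Finset.mem_univ _, fun _ => hall y⟩
  have h3 := hD.1 B1 hB1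
  rw [h1, Finset.card_univ, card_line] at h3
  omega

end Pool.Agent.N86.S9
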