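import Pool.Agent.N86.S8.Fisher
import Pool.Agent.N86.S9.Two

/-!
# A block-transitive group on a `6`-design is `3`-homogeneous; `PSL(2, q)` is not, if `q ≡ 1 (mod 4)`
-/

set_option autoImplicit false

namespace Pool.Agent.N86.S9

open Finset Matrix Pool.Agent.N86.S6 Pool.Agent.N86.S4 Pool.Agent.N86.S46 Pool.Agent.N86.S8

section
variable {X : Type*} [Fintype X] [DecidableEq X] {k lam : ℕ} {𝓑 : Finset (Finset X)}

/-- the incidence matrix of the `3`-sets and the blocks of a `6`-design has full rank -/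
theorem fisher_inj (hD : IsDesign 6 k lam 𝓑) (hk : 6 ≤ k) (hkv : k + 3 ≤ Fintype.card X)
    {B0 : Finset X} (hB0 : B0 ∈ 𝓑)
    (x : ((univ : Finset X).powersetCard 3) → ℚ)
    (hx' : ∀ B : 𝓑, (∑ S : ((univ : Finset X).powersetCard 3),
      if S.1 ⊆ B.1 then x S else 0) = 0) : x = 0 := by
  classical
  let T3 : Finset (Finset X) := (univ : Finset X).powersetCard 3
  have hT3 : ∀ S : T3, S.1.card = 3 := fun S => (Finset.mem_powersetCard.1 S.2).2
  -- positivity
  have hpos : ∀ S A : Finset X, S.card = 3 → A.card ≤ 3 → Disjoint S A → 0 < cnt 𝓑 S A := by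
    intro S A hS hA hd
    obtain ⟨S0, hS0, hS0c⟩ := Finset.exists_subset_card_eq (s := B0) (n := 3)
      (by rw [hD.1 B0 hB0]; omega)
    obtain ⟨A0, hA0, hA0c⟩ := Finset.exists_subset_card_eq (s := B0ᶜ) (n := A.card)
      (by rw [Finset.card_compl, hD.1 B0 hB0]; omega)
    have hd0 : Disjoint S0 A0 :=
      Disjoint.mono hS0 hA0 (disjoint_compl_right)
    rw [cnt_eq hD hk A.card S A S0 A0 rfl hA0c (by rw [hS, hS0c]) hd hd0 (by omega)]
    unfold cnt
    rw [Finset.card_pos]
    refine ⟨B0, ?_⟩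
    rw [Finset.mem_filter]
    exact ⟨hB0, hS0, Disjoint.mono_left hA0 disjoint_compl_left⟩
  -- sums over the sets disjoint from `A`
  have key : ∀ A : Finset X, A.card ≤ 3 →
      ∑ S : T3, (if Disjoint S.1 A then x S else 0) = 0 := by
    intro A hA
    have h1 : ∑ B : 𝓑, (if Disjoint A B.1 then
        (∑ S : T3, if S.1 ⊆ B.1 then x S else 0) else 0) = 0 := by
      refine Finset.sum_eq_zero fun B _ => ?_
      rw [hx' B]
      simp
    have h2 : ∑ B : 𝓑, (if Disjoint A B.1 then
        (∑ S : T3, if S.1 ⊆ B.1 then x S else 0) else 0) =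
        ∑ S : T3, x S * (cnt 𝓑 S.1 A : ℚ) := by
      have h3 : ∀ B : 𝓑, (if Disjoint A B.1 then
          (∑ S : T3, if S.1 ⊆ B.1 then x S else 0) else 0) =
          ∑ S : T3, if (S.1 ⊆ B.1 ∧ Disjoint A B.1) then x S else 0 := by
        intro B
        by_cases h : Disjoint A B.1
        · simp [h]
        · simp [h]
      rw [Finset.sum_congr rfl (fun B _ => h3 B), Finset.sum_comm]
      refine Finset.sum_congr rfl fun S _ => ?_
      unfold cnt
      rw [Finset.card_filter, Nat.cast_sum, Finset.mul_sum]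
      rw [← Finset.sum_coe_sort 𝓑 (fun B => x S * ((if S.1 ⊆ B ∧ Disjoint A B then 1 else 0 : ℕ) : ℚ))]
      refine Finset.sum_congr rfl fun B _ => ?_
      split_ifs <;> simp
    rw [h2] at h1
    by_cases hex : ∃ S0 : T3, Disjoint S0.1 A
    · obtain ⟨S0, hS0⟩ := hex
      have h4 : ∀ S : T3, x S * (cnt 𝓑 S.1 A : ℚ) =
          (if Disjoint S.1 A then x S else 0) * (cnt 𝓑 S0.1 A : ℚ) := by
        intro S
        by_cases h : Disjoint S.1 A
        · rw [if_pos h, cnt_eq hD hk A.card S.1 A S0.1 A rfl rfl (by rw [hT3, hT3]) h hS0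
            (by rw [hT3]; omega)]
        · rw [if_neg h, zero_mul]
          have h5 : cnt 𝓑 S.1 A = 0 := by
            unfold cnt
            rw [Finset.card_eq_zero, Finset.filter_eq_empty_iff]
            intro B _ hB'
            exact h (Disjoint.mono_left hB'.1 hB'.2.symm)
          rw [h5, Nat.cast_zero, mul_zero]
      rw [Finset.sum_congr rfl (fun S _ => h4 S), ← Finset.sum_mul] at h1
      rcases mul_eq_zero.1 h1 with h5 | h5
      · exact h5
      · exfalso
        have h6 := hpos S0.1 A (hT3 S0) hA hS0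
        have h7 : (cnt 𝓑 S0.1 A : ℚ) ≠ 0 := by
          exact_mod_cast h6.ne'
        exact h7 h5
    · refine Finset.sum_eq_zero fun S _ => ?_
      rw [if_neg (fun h => hex ⟨S, h⟩)]
  -- inclusion and exclusion
  funext T
  have h1 : ∑ A ∈ T.1.powerset, (-1 : ℚ) ^ A.card *
      ∑ S : T3, (if Disjoint S.1 A then x S else 0) = 0 := by
    refine Finset.sum_eq_zero fun A hA => ?_
    rw [key A ((Finset.card_le_card (Finset.mem_powerset.1 hA)).trans (hT3 T).le), mul_zero]
  have h2 : ∑ A ∈ T.1.powerset, (-1 : ℚ) ^ A.card *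
      ∑ S : T3, (if Disjoint S.1 A then x S else 0) = ∑ S : T3, (if S = T then x S else 0) := by
    rw [Finset.sum_congr rfl (fun A _ => Finset.mul_sum _ _ _), Finset.sum_comm]
    refine Finset.sum_congr rfl fun S _ => ?_
    have h3 : ∑ A ∈ T.1.powerset, (-1 : ℚ) ^ A.card * (if Disjoint S.1 A then x S else 0) =
        (∑ A ∈ (T.1 \ S.1).powerset, (-1 : ℚ) ^ A.card) * x S := by
      rw [Finset.sum_mul]
      have h4 : (T.1 \ S.1).powerset = T.1.powerset.filter (fun A => Disjoint S.1 A) := by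
        ext A
        rw [Finset.mem_powerset, Finset.mem_filter, Finset.mem_powerset,
          Finset.subset_sdiff, disjoint_comm]
      rw [h4, Finset.sum_filter]
      refine Finset.sum_congr rfl fun A _ => ?_
      split_ifs <;> simp
    rw [h3]
    have h5 : (∑ A ∈ (T.1 \ S.1).powerset, (-1 : ℚ) ^ A.card) =
        if T.1 \ S.1 = ∅ then 1 else 0 := by
      have h6 := Finset.sum_powerset_neg_one_pow_card (x := T.1 \ S.1)
      have h7 : ((∑ A ∈ (T.1 \ S.1).powerset, (-1 : ℤ) ^ A.card : ℤ) : ℚ) =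
          ((if T.1 \ S.1 = ∅ then 1 else 0 : ℤ) : ℚ) := by rw [h6]
      push_cast at h7
      exact h7
    rw [h5]
    by_cases h : S = T
    · rw [if_pos h, h, if_pos (Finset.sdiff_self _), one_mul]
    · rw [if_neg h, if_neg, zero_mul]
      intro h8
      rw [Finset.sdiff_eq_empty_iff_subset] at h8
      exact h (Subtype.ext (Finset.eq_of_subset_of_card_le h8 (by rw [hT3, hT3])).symm)
  rw [h1, Finset.sum_ite_eq' Finset.univ T] at h2
  simpa using h2.symm

/-- the same, for functions on finite sets -/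
theorem fisher_inj' (hD : IsDesign 6 k lam 𝓑) (hk : 6 ≤ k) (hkv : k + 3 ≤ Fintype.card X)
    {B0 : Finset X} (hB0 : B0 ∈ 𝓑) (F : Finset X → ℚ)
    (hF : ∀ B ∈ 𝓑, ∑ S ∈ B.powersetCard 3, F S = 0) (S : Finset X) (hS : S.card = 3) :
    F S = 0 := by
  have h1 := fisher_inj hD hk hkv hB0 (fun S => F S.1) (fun B => by
    rw [Finset.sum_coe_sort ((univ : Finset X).powersetCard 3)
      (fun S => if S ⊆ B.1 then F S else 0), ← Finset.sum_filter]
    have h2 : ((univ : Finset X).powersetCard 3).filter (fun S => S ⊆ B.1) =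
        B.1.powersetCard 3 := by
      ext T
      rw [Finset.mem_filter, Finset.mem_powersetCard, Finset.mem_powersetCard]
      exact ⟨fun h => ⟨h.2, h.1.2⟩, fun h => ⟨⟨Finset.subset_univ _, h.2⟩, h.1⟩⟩
    rw [h2]
    exact hF B.1 B.2)
  exact congrFun h1 ⟨S, Finset.mem_powersetCard.2 ⟨Finset.subset_univ _, hS⟩⟩

/-- a block-transitive group of a `6`-design is `3`-homogeneous -/
theorem three_homog (hD : IsDesign 6 k lam 𝓑) (hk : 6 ≤ k) (hkv : k + 3 ≤ Fintype.card X)
    {B0 : Finset X} (hB0 : B0 ∈ 𝓑) {G : Subgroup (Equiv.Perm X)}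
    (htr : ∀ B ∈ 𝓑, ∃ g ∈ G, B = B0.image g) {S T : Finset X} (hS : S.card = 3)
    (hT : T.card = 3) : ∃ g ∈ G, T = S.image g := by
  classical
  by_contra hcon
  let Ω : Finset X → Prop := fun U => ∃ g ∈ G, U = S.image g
  have hΩ : ∀ g ∈ G, ∀ U, Ω (U.image g) ↔ Ω U := by
    intro g hg U
    constructor
    · rintro ⟨h, hh, h1⟩
      refine ⟨g⁻¹ * h, G.mul_mem (G.inv_mem hg) hh, ?_⟩
      have h3 : (⇑(g⁻¹ * h) : X → X) = (⇑g⁻¹) ∘ h := rfl
      rw [h3, ← Finset.image_image, ← h1, Finset.image_image]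
      have h4 : (⇑g⁻¹ : X → X) ∘ g = id := by funext x; simp
      rw [h4, Finset.image_id]
    · rintro ⟨h, hh, rfl⟩
      exact ⟨g * h, G.mul_mem hg hh, by rw [Finset.image_image]; rfl⟩
  let α : ℕ := ((B0.powersetCard 3).filter (fun U => Ω U)).card
  let β : ℕ := ((B0.powersetCard 3).filter (fun U => ¬ Ω U)).card
  have hαβ : α + β = k.choose 3 := by
    have h1 := Finset.card_filter_add_card_filter_not (s := B0.powersetCard 3) (fun U => Ω U)
    rw [Finset.card_powersetCard, hD.1 B0 hB0] at h1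
    exact h1
  let F : Finset X → ℚ := fun U => if Ω U then (β : ℚ) else -(α : ℚ)
  have hF : ∀ B ∈ 𝓑, ∑ U ∈ B.powersetCard 3, F U = 0 := by
    intro B hB
    obtain ⟨g, hg, rfl⟩ := htr B hB
    have h1 : B0.image g = B0.map g.toEmbedding := by rw [Finset.map_eq_image]; rfl
    rw [h1, Finset.powersetCard_map, Finset.sum_map]
    have h2 : ∀ U ∈ B0.powersetCard 3,
        F ((Finset.mapEmbedding g.toEmbedding).toEmbedding U) = F U := by
      intro U _
      have h3 : (Finset.mapEmbedding g.toEmbedding).toEmbedding U = U.image g := by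
        rw [RelEmbedding.coe_toEmbedding, Finset.mapEmbedding_apply, Finset.map_eq_image]
        rfl
      rw [h3]
      simp only [F]
      rw [if_congr (hΩ g hg U) rfl rfl]
    rw [Finset.sum_congr rfl h2]
    simp only [F]
    rw [Finset.sum_ite, Finset.sum_const, Finset.sum_const, nsmul_eq_mul, nsmul_eq_mul]
    show (α : ℚ) * β + (β : ℚ) * (-(α : ℚ)) = 0
    ring
  have h1 := fisher_inj' hD hk hkv hB0 F hF S hS
  have h2 := fisher_inj' hD hk hkv hB0 F hF T hT
  have h3 : Ω S := ⟨1, G.one_mem, by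
    have : (⇑(1 : Equiv.Perm X) : X → X) = id := rfl
    rw [this, Finset.image_id]⟩
  have h4 : ¬ Ω T := hcon
  simp only [F] at h1 h2
  rw [if_pos h3] at h1
  rw [if_neg h4] at h2
  have h5 : β = 0 := by exact_mod_cast h1
  have h6 : α = 0 := by
    have : (α : ℚ) = 0 := by linear_combination -h2
    exact_mod_cast this
  have h7 : 0 < k.choose 3 := Nat.choose_pos (by omega)
  omega

end

section
variable {K : Type*} [Field K] [DecidableEq K]

/-- the set `{∞, 0, c}` -/
noncomputable def tri (c : K) : Finset (OnePoint K) :=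
  {OnePoint.infty, ((0 : K) : OnePoint K), (c : OnePoint K)}

lemma mem_tri {c : K} {x : OnePoint K} : x ∈ tri c ↔ x = OnePoint.infty ∨
    x = ((0 : K) : OnePoint K) ∨ x = (c : OnePoint K) := by
  rw [tri, Finset.mem_insert, Finset.mem_insert, Finset.mem_singleton]

lemma card_tri {c : K} (hc : c ≠ 0) : (tri c).card = 3 := by
  rw [tri, Finset.card_insert_of_notMem, Finset.card_insert_of_notMem, Finset.card_singleton]
  · rw [Finset.mem_singleton, OnePoint.coe_eq_coe]; exact hc.symm
  · rw [Finset.mem_insert, Finset.mem_singleton, not_or]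
    exact ⟨OnePoint.infty_ne_coe _, OnePoint.infty_ne_coe _⟩

/-- no element of `PSL(2, q)` maps `{∞, 0, 1}` to `{∞, 0, a}`, if `a` is not a square and `-1` is -/
lemma tri_square {a i : K} (hi : i ^ 2 = -1) (A : GL (Fin 2) K) (hA : IsSquare (A.det : K))
    (h : tri a = (tri 1).image (glPerm A)) : IsSquare a := by
  obtain ⟨r, hr⟩ := hA
  have hdet : A 0 0 * A 1 1 - A 0 1 * A 1 0 = r * r := by
    have h1 : (A : Matrix (Fin 2) (Fin 2) K).det = r * r := hr
    rwa [Matrix.det_fin_two] at h1
  have hdet0 : A 0 0 * A 1 1 - A 0 1 * A 1 0 ≠ 0 := by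
    have h1 := A.det_ne_zero
    rwa [Matrix.det_fin_two] at h1
  have sq1 : ∀ s : K, s ≠ 0 → a * s ^ 2 = r * r → IsSquare a := by
    intro s hs h1
    refine ⟨r / s, ?_⟩
    field_simp
    linear_combination h1
  have sq2 : ∀ s : K, s ≠ 0 → a * s ^ 2 = -(r * r) → IsSquare a := by
    intro s hs h1
    refine ⟨i * r / s, ?_⟩
    field_simp
    linear_combination h1 - r ^ 2 * hi
  have h1 : ∀ y, y ∈ tri (1 : K) → glPerm A y ∈ tri a := fun y hy => by
    rw [h]; exact Finset.mem_image_of_mem _ hy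
  have hI := h1 _ (mem_tri.2 (Or.inl rfl))
  have h0 := h1 _ (mem_tri.2 (Or.inr (Or.inl rfl)))
  have h11 := h1 _ (mem_tri.2 (Or.inr (Or.inr rfl)))
  rw [mem_tri] at hI h0 h11
  have n1 : glPerm A OnePoint.infty ≠ glPerm A ((0 : K) : OnePoint K) := fun e =>
    OnePoint.infty_ne_coe _ ((glPerm A).injective e)
  have n2 : glPerm A OnePoint.infty ≠ glPerm A ((1 : K) : OnePoint K) := fun e =>
    OnePoint.infty_ne_coe _ ((glPerm A).injective e)
  have n3 : glPerm A ((0 : K) : OnePoint K) ≠ glPerm A ((1 : K) : OnePoint K) := fun e => by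
    have := (glPerm A).injective e
    rw [OnePoint.coe_eq_coe] at this
    exact zero_ne_one this
  -- the meaning of the values
  have vI : ∀ c : K, glPerm A OnePoint.infty = (c : OnePoint K) → A 1 0 ≠ 0 ∧ A 0 0 = c * A 1 0 := by
    intro c hc
    rw [glPerm_infty] at hc
    by_cases h10 : A 1 0 = 0
    · rw [if_pos h10] at hc; exact absurd hc (OnePoint.infty_ne_coe _)
    · rw [if_neg h10, OnePoint.coe_eq_coe, div_eq_iff h10] at hc
      exact ⟨h10, hc⟩
  have vI' : glPerm A OnePoint.infty = OnePoint.infty → A 1 0 = 0 := by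
    intro hc
    rw [glPerm_infty] at hc
    by_contra h10
    rw [if_neg h10] at hc; exact OnePoint.coe_ne_infty _ hc
  have vx : ∀ x c : K, glPerm A (x : OnePoint K) = (c : OnePoint K) →
      A 0 0 * x + A 0 1 = c * (A 1 0 * x + A 1 1) := by
    intro x c hc
    rw [glPerm_coe] at hc
    by_cases h10 : A 1 0 * x + A 1 1 = 0
    · rw [if_pos h10] at hc; exact absurd hc (OnePoint.infty_ne_coe _)
    · rw [if_neg h10, OnePoint.coe_eq_coe, div_eq_iff h10] at hc
      exact hc
  have vx' : ∀ x : K, glPerm A (x : OnePoint K) = OnePoint.infty → A 1 0 * x + A 1 1 = 0 := by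
    intro x hc
    rw [glPerm_coe] at hc
    by_contra h10
    rw [if_neg h10] at hc; exact OnePoint.coe_ne_infty _ hc
  rcases hI with hI | hI | hI
  · have e1 := vI' hI
    have hδ : A 1 1 ≠ 0 := by
      intro e; apply hdet0; rw [e1, e]; ring
    rcases h0 with h0 | h0 | h0
    · exact absurd (hI.trans h0.symm) n1
    · rcases h11 with h11 | h11 | h11
      · exact absurd (hI.trans h11.symm) n2
      · exact absurd (h0.trans h11.symm) n3
      · have e2 := vx _ _ h0
        have e3 := vx _ _ h11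
        rw [e1] at e2 e3 hdet
        refine sq1 (A 1 1) hδ ?_
        linear_combination hdet + A 1 1 * e2 - A 1 1 * e3
    · rcases h11 with h11 | h11 | h11
      · exact absurd (hI.trans h11.symm) n2
      · have e2 := vx _ _ h0
        have e3 := vx _ _ h11
        rw [e1] at e2 e3 hdet
        refine sq2 (A 1 1) hδ ?_
        linear_combination -hdet + A 1 1 * e3 - A 1 1 * e2
      · exact absurd (h0.trans h11.symm) n3
  · obtain ⟨hγ, e1⟩ := vI _ hI
    rcases h0 with h0 | h0 | h0
    · rcases h11 with h11 | h11 | h11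
      · exact absurd (h0.trans h11.symm) n3
      · exact absurd (hI.trans h11.symm) n2
      · have e2 := vx' _ h0
        have e3 := vx _ _ h11
        refine sq2 (A 1 0) hγ ?_
        linear_combination -hdet + A 1 1 * e1 - A 1 0 * e3 + A 1 0 * e1 - a * A 1 0 * e2
    · exact absurd (hI.trans h0.symm) n1
    · rcases h11 with h11 | h11 | h11
      · have e2 := vx _ _ h0
        have e3 := vx' _ h11
        refine sq1 (A 1 0) hγ ?_
        linear_combination hdet - A 1 1 * e1 + A 1 0 * e2 + a * A 1 0 * e3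
      · exact absurd (hI.trans h11.symm) n2
      · exact absurd (h0.trans h11.symm) n3
  · obtain ⟨hγ, e1⟩ := vI _ hI
    rcases h0 with h0 | h0 | h0
    · rcases h11 with h11 | h11 | h11
      · exact absurd (h0.trans h11.symm) n3
      · have e2 := vx' _ h0
        have e3 := vx _ _ h11
        refine sq1 (A 1 0) hγ ?_
        linear_combination hdet - A 0 0 * e2 + A 1 0 * e3 - A 1 0 * e1
      · exact absurd (hI.trans h11.symm) n2
    · rcases h11 with h11 | h11 | h11
      · have e2 := vx _ _ h0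
        have e3 := vx' _ h11
        refine sq2 (A 1 0) hγ ?_
        linear_combination -hdet + A 0 0 * e3 - A 1 0 * e2 - A 1 0 * e1
      · exact absurd (h0.trans h11.symm) n3
      · exact absurd (hI.trans h11.symm) n2
    · exact absurd (hI.trans h0.symm) n1

end

end Pool.Agent.N86.S9
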