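import Pool.Agent.N86.S9.Pgl

/-!
# `PGL(2, q)` is not block-transitive on a `6`-design with odd `λ`, if `q ≡ 1 (mod 4)`
-/

set_option autoImplicit false

namespace Pool.Agent.N86.S9

open Finset Matrix Pool.Agent.N86.S6 Pool.Agent.N86.S4 Pool.Agent.N86.S46

variable {K : Type*} [Field K] [DecidableEq K] [Fintype K]

omit [DecidableEq K] in
/-- in a finite field the elements of `2`-power order are powers of every nonsquare -/
lemma full_aux {c0 c : K} (h0 : c0 ≠ 0) (hc0 : ¬ IsSquare c0) (hcn : c ≠ 0) {n : ℕ}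
    (hc : c ^ (2 ^ n) = 1) : ∃ j : ℤ, c = c0 ^ j := by
  obtain ⟨γ, hγ⟩ := IsCyclic.exists_generator (α := Kˣ)
  obtain ⟨s, hs⟩ := hγ (Units.mk0 c0 h0)
  obtain ⟨t, ht⟩ := hγ (Units.mk0 c hcn)
  simp only at hs ht
  have hs' : ((γ : K)) ^ s = c0 := by
    have := congrArg (fun u : Kˣ => (u : K)) hs
    simpa using this
  have hsodd : ¬ Even s := by
    rintro ⟨r, hr⟩
    apply hc0
    refine ⟨(γ : K) ^ r, ?_⟩
    rw [← hs', hr, zpow_add₀ γ.ne_zero]
  have h1 : γ ^ (t * 2 ^ n) = 1 := by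
    rw [_root_.zpow_mul, ht]
    apply Units.ext
    rw [show ((2 : ℤ) ^ n) = ((2 ^ n : ℕ) : ℤ) by push_cast; rfl, zpow_natCast]
    rw [Units.val_pow_eq_pow_val, Units.val_mk0, hc, Units.val_one]
  have h2 : (orderOf γ : ℤ) ∣ t * 2 ^ n := orderOf_dvd_iff_zpow_eq_one.2 h1
  have h3 : ((Int.gcd s (orderOf γ) : ℕ) : ℤ) ∣ s := Int.gcd_dvd_left ..
  have h4 : ((Int.gcd s (orderOf γ) : ℕ) : ℤ) ∣ (orderOf γ : ℤ) := Int.gcd_dvd_right ..
  have h5 : ((Int.gcd s (orderOf γ) : ℕ) : ℤ) ∣ t := by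
    have h6 : IsCoprime ((Int.gcd s (orderOf γ) : ℕ) : ℤ) ((2 : ℤ) ^ n) := by
      apply IsCoprime.pow_right
      have h7 : IsCoprime s (2 : ℤ) := by
        rw [Int.isCoprime_iff_gcd_eq_one]
        rw [Int.not_even_iff_odd] at hsodd
        have h8 := Int.odd_iff.1 hsodd
        rcases Int.emod_two_eq_zero_or_one s with h9 | h9
        · omega
        · have : Int.gcd s 2 ∣ 2 := by
            have h10 : ((Int.gcd s 2 : ℕ) : ℤ) ∣ ((2 : ℕ) : ℤ) := Int.gcd_dvd_right ..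
            exact_mod_cast h10
          rcases (Nat.dvd_prime Nat.prime_two).1 this with h11 | h11
          · exact h11
          · exfalso
            have h12 : ((Int.gcd s 2 : ℕ) : ℤ) ∣ s := Int.gcd_dvd_left ..
            rw [h11] at h12
            omega
      exact IsCoprime.of_isCoprime_of_dvd_left h7 h3
    exact h6.dvd_of_dvd_mul_right (h4.trans h2)
  obtain ⟨t', ht'⟩ := h5
  refine ⟨Int.gcdA s (orderOf γ) * t', ?_⟩
  have h6 := Int.gcd_eq_gcd_ab s (orderOf γ)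
  have h7 : t = s * (Int.gcdA s (orderOf γ) * t') +
      (orderOf γ : ℤ) * (Int.gcdB s (orderOf γ) * t') := by
    rw [ht', h6]; ring
  have e1 : ∀ X : ℤ, γ ^ (s * X) = (Units.mk0 c0 h0) ^ X := fun X => by
    rw [_root_.zpow_mul, hs]
  have e2 : ∀ Y : ℤ, γ ^ ((orderOf γ : ℤ) * Y) = 1 := fun Y => by
    rw [_root_.zpow_mul, zpow_natCast, pow_orderOf_eq_one, _root_.one_zpow]
  have h8 : γ ^ t = (Units.mk0 c0 h0) ^ (Int.gcdA s (orderOf γ) * t') := by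
    rw [h7, _root_.zpow_add, e1, e2, mul_one]
  rw [ht] at h8
  have := congrArg (fun u : Kˣ => (u : K)) h8
  simpa using this

lemma full {Q : Subgroup (Equiv.Perm (OnePoint K))} {g0 g : Equiv.Perm (OnePoint K)} {c0 c : K}
    (h0 : g0 ∈ Q) (hg0 : IsMul g0 c0) (hc0 : ¬ IsSquare c0) (hg : IsMul g c) {n : ℕ}
    (hc : c ^ (2 ^ n) = 1) : g ∈ Q := by
  obtain ⟨j, rfl⟩ := full_aux hg0.ne hc0 hg.ne hc
  rw [hg.ext (hg0.zpow j)]
  exact Q.zpow_mem h0 j

omit [Fintype K] in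
lemma exists_isMul {c : K} (hc : c ≠ 0) : ∃ A : GL (Fin 2) K, IsMul (glPerm A) c := by
  let A : GL (Fin 2) K := Matrix.GeneralLinearGroup.mkOfDetNeZero !![c, 0; 0, 1] (by
    rw [Matrix.det_fin_two_of]; simpa using hc)
  have h00 : A 0 0 = c := rfl
  have h01 : A 0 1 = 0 := rfl
  have h10 : A 1 0 = 0 := rfl
  have h11 : A 1 1 = 1 := rfl
  refine ⟨A, hc, ?_, fun x => ?_⟩
  · rw [glPerm_infty, if_pos h10]
  · rw [glPerm_coe, h10, h11, h00, h01, if_neg (by rw [zero_mul, zero_add]; exact one_ne_zero)]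
    congr 1
    ring

omit [Fintype K] in
lemma exists_isInv {c : K} (hc : c ≠ 0) : ∃ A : GL (Fin 2) K, IsInv (glPerm A) c := by
  let A : GL (Fin 2) K := Matrix.GeneralLinearGroup.mkOfDetNeZero !![0, c; 1, 0] (by
    rw [Matrix.det_fin_two_of]; simpa using hc)
  have h00 : A 0 0 = 0 := rfl
  have h01 : A 0 1 = c := rfl
  have h10 : A 1 0 = 1 := rfl
  have h11 : A 1 1 = 0 := rfl
  refine ⟨A, hc, ?_, ?_, fun x hx => ?_⟩
  · rw [glPerm_infty, h10, h00, if_neg one_ne_zero, zero_div]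
  · rw [glPerm_coe, h10, h11, if_pos (by ring)]
  · rw [glPerm_coe, h00, h01, h10, h11, if_neg (by rw [one_mul, add_zero]; exact hx), one_mul,
      add_zero, zero_mul, zero_add]

/-- the elements of a `2`-group above `W` -/
lemma mem_cases {G Q : Subgroup (Equiv.Perm (OnePoint K))}
    (hG : ∀ g ∈ G, ∃ A : GL (Fin 2) K, g = glPerm A) (hq : Fintype.card K % 4 = 1)
    {i a : K} (hi : i ^ 2 = -1) (h2 : (2 : K) ≠ 0) {z w : Equiv.Perm (OnePoint K)}
    (hz : IsMul z (-1)) (hw : IsInv w a) (ha : ¬ IsSquare a) (hQG : Q ≤ G)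
    (hQ : IsPGroup 2 Q) (hzQ : z ∈ Q) (hwQ : w ∈ Q) :
    ∀ g ∈ Q, ∃ c, IsMul g c ∨ IsInv g c := by
  intro g hg
  obtain ⟨s, hs, hsg⟩ := pair_exists (X := OnePoint K) (by rw [card_line]; omega) hQ
  have h1 := pair_unique hi h2 hz hw ha hs (hsg z hzQ) (hsg w hwQ)
  obtain ⟨A, rfl⟩ := hG g (hQG hg)
  refine pres A ?_
  rw [← h1]
  exact hsg _ hg

omit [Fintype K] in
lemma one_of_pow {Q : Subgroup (Equiv.Perm (OnePoint K))} (hQ : IsPGroup 2 Q)
    {g : Equiv.Perm (OnePoint K)} (hg : g ∈ Q) {c : K} (hgc : IsMul g c) :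
    ∃ n : ℕ, c ^ (2 ^ n) = 1 := by
  obtain ⟨n, hn⟩ := hQ ⟨g, hg⟩
  refine ⟨n, ?_⟩
  have h1 : g ^ (2 ^ n) = 1 := congrArg Subtype.val hn
  have h2 := hgc.pow (2 ^ n)
  rw [h1] at h2
  exact h2.inj IsMul.one

/-- such a `2`-group is contained in every other one with an element `x ↦ c x`, `c` a nonsquare -/
lemma le_of_full {Q Q' : Subgroup (Equiv.Perm (OnePoint K))} {a : K}
    {w : Equiv.Perm (OnePoint K)} (hw : IsInv w a) (hQ : IsPGroup 2 Q) (hwQ : w ∈ Q)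
    (hcases : ∀ g ∈ Q, ∃ c, IsMul g c ∨ IsInv g c) (hwQ' : w ∈ Q')
    (hfull : ∃ g0 ∈ Q', ∃ c0, IsMul g0 c0 ∧ ¬ IsSquare c0) : Q ≤ Q' := by
  obtain ⟨g0, hg0, c0, hgc0, hc0⟩ := hfull
  have key : ∀ g ∈ Q, ∀ c, IsMul g c → g ∈ Q' := by
    intro g hg c hgc
    obtain ⟨n, hn⟩ := one_of_pow hQ hg hgc
    exact full hg0 hgc0 hc0 hgc hn
  intro g hg
  obtain ⟨c, hc | hc⟩ := hcases g hg
  · exact key g hg c hc
  · have h1 := key (g * w) (Q.mul_mem hg hwQ) _ (hc.mul_inv hw)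
    have h2 : g = g * w * w := by rw [mul_assoc, hw.sq, mul_one]
    rw [h2]
    exact Q'.mul_mem h1 hwQ'

omit [Fintype K] in
lemma image_eq_of_maps {S : Finset (OnePoint K)} {g : Equiv.Perm (OnePoint K)}
    (h : ∀ y ∈ S, g y ∈ S) : S.image g = S := by
  apply Finset.eq_of_subset_of_card_le
  · intro y hy
    obtain ⟨x, hx, rfl⟩ := Finset.mem_image.1 hy
    exact h x hx
  · rw [Finset.card_image_of_injective _ g.injective]

end Pool.Agent.N86.S9
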