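import Pool.Agent.N86.S9.Syl
import Pool.Agent.N86.S7.Split

/-!
# The permutations `x ↦ c x` and `x ↦ c / x` of the projective line
-/

set_option autoImplicit false

namespace Pool.Agent.N86.S9

open Finset Matrix Pool.Agent.N86.S6 Pool.Agent.N86.S4 Pool.Agent.N86.S46

section
variable {K : Type*} [Field K] [DecidableEq K]

/-- `g` is `x ↦ c x` -/
structure IsMul (g : Equiv.Perm (OnePoint K)) (c : K) : Prop where
  ne : c ≠ 0
  inf : g OnePoint.infty = OnePoint.infty
  coe : ∀ x : K, g (x : OnePoint K) = ((c * x : K) : OnePoint K)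

/-- `g` is `x ↦ c / x` -/
structure IsInv (g : Equiv.Perm (OnePoint K)) (c : K) : Prop where
  ne : c ≠ 0
  inf : g OnePoint.infty = ((0 : K) : OnePoint K)
  zero : g ((0 : K) : OnePoint K) = OnePoint.infty
  coe : ∀ x : K, x ≠ 0 → g (x : OnePoint K) = ((c / x : K) : OnePoint K)

variable {g h : Equiv.Perm (OnePoint K)} {c d : K}

omit [DecidableEq K] in
lemma IsMul.one : IsMul (1 : Equiv.Perm (OnePoint K)) 1 where
  ne := one_ne_zero
  inf := rfl
  coe x := by rw [one_mul]; rfl

omit [DecidableEq K] in
lemma IsMul.mul (hg : IsMul g c) (hh : IsMul h d) : IsMul (g * h) (c * d) where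
  ne := mul_ne_zero hg.ne hh.ne
  inf := by rw [Equiv.Perm.mul_apply, hh.inf, hg.inf]
  coe x := by rw [Equiv.Perm.mul_apply, hh.coe, hg.coe, mul_assoc]

omit [DecidableEq K] in
lemma IsMul.ext (hg : IsMul g c) (hh : IsMul h c) : g = h := by
  ext x : 1
  induction x using OnePoint.rec with
  | infty => rw [hg.inf, hh.inf]
  | coe x => rw [hg.coe, hh.coe]

omit [DecidableEq K] in
lemma IsMul.inj (hg : IsMul g c) (hh : IsMul g d) : c = d := by
  have h1 := hg.coe 1
  rw [hh.coe 1, OnePoint.coe_eq_coe, mul_one, mul_one] at h1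
  exact h1.symm

omit [DecidableEq K] in
lemma IsMul.pow (hg : IsMul g c) (n : ℕ) : IsMul (g ^ n) (c ^ n) := by
  induction n with
  | zero => rw [pow_zero, pow_zero]; exact IsMul.one
  | succ n ih => rw [pow_succ, pow_succ]; exact ih.mul hg

omit [DecidableEq K] in
lemma IsMul.inv (hg : IsMul g c) : IsMul g⁻¹ c⁻¹ where
  ne := inv_ne_zero hg.ne
  inf := by rw [Equiv.Perm.inv_eq_iff_eq, hg.inf]
  coe x := by rw [Equiv.Perm.inv_eq_iff_eq, hg.coe, mul_inv_cancel_left₀ hg.ne]

omit [DecidableEq K] in
lemma IsMul.zpow (hg : IsMul g c) (n : ℤ) : IsMul (g ^ n) (c ^ n) := by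
  cases n with
  | ofNat n =>
    rw [Int.ofNat_eq_natCast, zpow_natCast, zpow_natCast]
    exact hg.pow n
  | negSucc n =>
    rw [zpow_negSucc, zpow_negSucc]
    exact (hg.pow (n + 1)).inv

omit [DecidableEq K] in
lemma IsInv.mul_inv (hg : IsInv g c) (hh : IsInv h d) : IsMul (g * h) (c / d) where
  ne := div_ne_zero hg.ne hh.ne
  inf := by rw [Equiv.Perm.mul_apply, hh.inf, hg.zero]
  coe x := by
    rw [Equiv.Perm.mul_apply]
    by_cases hx : x = 0
    · subst hx
      rw [hh.zero, hg.inf, mul_zero]
    · rw [hh.coe x hx, hg.coe _ (div_ne_zero hh.ne hx)]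
      congr 1
      have := hh.ne
      field_simp

omit [DecidableEq K] in
lemma IsMul.mul_isInv (hg : IsMul g c) (hh : IsInv h d) : IsInv (g * h) (c * d) where
  ne := mul_ne_zero hg.ne hh.ne
  inf := by rw [Equiv.Perm.mul_apply, hh.inf, hg.coe, mul_zero]
  zero := by rw [Equiv.Perm.mul_apply, hh.zero, hg.inf]
  coe x hx := by rw [Equiv.Perm.mul_apply, hh.coe x hx, hg.coe, mul_div_assoc]

omit [DecidableEq K] in
lemma IsInv.mul_isMul (hg : IsInv g c) (hh : IsMul h d) : IsInv (g * h) (c / d) where
  ne := div_ne_zero hg.ne hh.ne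
  inf := by rw [Equiv.Perm.mul_apply, hh.inf, hg.inf]
  zero := by rw [Equiv.Perm.mul_apply, hh.coe, mul_zero, hg.zero]
  coe x hx := by
    rw [Equiv.Perm.mul_apply, hh.coe, hg.coe _ (mul_ne_zero hh.ne hx)]
    congr 1
    have := hh.ne
    field_simp

omit [DecidableEq K] in
lemma IsInv.ext (hg : IsInv g c) (hh : IsInv h c) : g = h := by
  ext x : 1
  induction x using OnePoint.rec with
  | infty => rw [hg.inf, hh.inf]
  | coe x =>
    by_cases hx : x = 0
    · subst hx; rw [hg.zero, hh.zero]
    · rw [hg.coe x hx, hh.coe x hx]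

omit [DecidableEq K] in
lemma IsInv.sq (hg : IsInv g c) : g * g = 1 := by
  have h1 := hg.mul_inv hg
  rw [div_self hg.ne] at h1
  exact h1.ext IsMul.one

/-- the points `∞` and `0` -/
noncomputable def E0 (K : Type*) [Field K] [DecidableEq K] : Finset (OnePoint K) :=
  {OnePoint.infty, ((0 : K) : OnePoint K)}

lemma mem_E0 {x : OnePoint K} : x ∈ E0 K ↔ x = OnePoint.infty ∨ x = ((0 : K) : OnePoint K) := by
  rw [E0, Finset.mem_insert, Finset.mem_singleton]

lemma card_E0 : (E0 K).card = 2 := Finset.card_pair (OnePoint.infty_ne_coe _)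

lemma IsMul.image (hg : IsMul g c) : (E0 K).image g = E0 K := by
  rw [E0, Finset.image_insert, Finset.image_singleton, hg.inf, hg.coe, mul_zero]

lemma IsInv.image (hg : IsInv g c) : (E0 K).image g = E0 K := by
  rw [E0, Finset.image_insert, Finset.image_singleton, hg.inf, hg.zero, Finset.pair_comm]

/-- the projective transformations which leave `{∞, 0}` invariant -/
lemma pres (A : GL (Fin 2) K) (h : (E0 K).image (glPerm A) = E0 K) :
    ∃ c, IsMul (glPerm A) c ∨ IsInv (glPerm A) c := by
  have hdet : A 0 0 * A 1 1 - A 0 1 * A 1 0 ≠ 0 := by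
    have h1 := A.det_ne_zero
    rwa [Matrix.det_fin_two] at h1
  have h1 : glPerm A OnePoint.infty ∈ E0 K := by
    rw [← h]; exact Finset.mem_image_of_mem _ (mem_E0.2 (Or.inl rfl))
  have h2 : glPerm A ((0 : K) : OnePoint K) ∈ E0 K := by
    rw [← h]; exact Finset.mem_image_of_mem _ (mem_E0.2 (Or.inr rfl))
  rw [mem_E0] at h1 h2
  have hne : glPerm A OnePoint.infty ≠ glPerm A ((0 : K) : OnePoint K) := fun e =>
    OnePoint.infty_ne_coe _ ((glPerm A).injective e)
  rcases h1 with h1 | h1
  · have h2' : glPerm A ((0 : K) : OnePoint K) = ((0 : K) : OnePoint K) := by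
      rcases h2 with h2 | h2
      · exact absurd (h1.trans h2.symm) hne
      · exact h2
    have h10 : A 1 0 = 0 := by
      rw [glPerm_infty] at h1
      by_contra hcon
      rw [if_neg hcon] at h1
      exact OnePoint.coe_ne_infty _ h1
    rw [h10, mul_zero, sub_zero] at hdet
    have h11 : A 1 1 ≠ 0 := right_ne_zero_of_mul hdet
    have h00 : A 0 0 ≠ 0 := left_ne_zero_of_mul hdet
    have h01 : A 0 1 = 0 := by
      rw [glPerm_coe, h10, zero_mul, zero_add, if_neg h11, OnePoint.coe_eq_coe, mul_zero,
        zero_add, div_eq_zero_iff] at h2'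
      exact h2'.resolve_right h11
    refine ⟨A 0 0 / A 1 1, Or.inl ⟨div_ne_zero h00 h11, h1, fun x => ?_⟩⟩
    rw [glPerm_coe, h10, zero_mul, zero_add, if_neg h11, h01, add_zero]
    congr 1
    ring
  · have h2' : glPerm A ((0 : K) : OnePoint K) = OnePoint.infty := by
      rcases h2 with h2 | h2
      · exact h2
      · exact absurd (h1.trans h2.symm) hne
    have h11 : A 1 1 = 0 := by
      rw [glPerm_coe] at h2'
      by_contra hcon
      rw [mul_zero, zero_add, if_neg hcon] at h2'
      exact OnePoint.coe_ne_infty _ h2'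
    rw [h11, mul_zero, zero_sub, neg_ne_zero] at hdet
    have h10 : A 1 0 ≠ 0 := right_ne_zero_of_mul hdet
    have h01 : A 0 1 ≠ 0 := left_ne_zero_of_mul hdet
    have h00 : A 0 0 = 0 := by
      rw [glPerm_infty, if_neg h10, OnePoint.coe_eq_coe, div_eq_zero_iff] at h1
      exact h1.resolve_right h10
    refine ⟨A 0 1 / A 1 0, Or.inr ⟨div_ne_zero h01 h10, h1, h2', fun x hx => ?_⟩⟩
    rw [glPerm_coe, h11, add_zero, if_neg (mul_ne_zero h10 hx), h00, zero_mul, zero_add]
    congr 1
    field_simp

/-- the pairs which are invariant under `x ↦ - x` and `x ↦ a / x`, if `a` is not a square -/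
lemma pair_unique {z w : Equiv.Perm (OnePoint K)} {a i : K} (hi : i ^ 2 = -1) (h2 : (2 : K) ≠ 0)
    (hz : IsMul z (-1)) (hw : IsInv w a) (ha : ¬ IsSquare a) {s : Finset (OnePoint K)}
    (hs : s.card = 2) (hsz : s.image z = s) (hsw : s.image w = s) : s = E0 K := by
  have hmz : ∀ x ∈ s, z x ∈ s := fun x hx => by
    rw [← hsz]; exact Finset.mem_image_of_mem _ hx
  have hmw : ∀ x ∈ s, w x ∈ s := fun x hx => by
    rw [← hsw]; exact Finset.mem_image_of_mem _ hx
  have hE : E0 K ⊆ s := by
    by_cases h : OnePoint.infty ∈ s ∨ ((0 : K) : OnePoint K) ∈ s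
    · have h3 : OnePoint.infty ∈ s ∧ ((0 : K) : OnePoint K) ∈ s := by
        rcases h with h | h
        · refine ⟨h, ?_⟩
          have := hmw _ h
          rwa [hw.inf] at this
        · refine ⟨?_, h⟩
          have := hmw _ h
          rwa [hw.zero] at this
      intro x hx
      rcases mem_E0.1 hx with rfl | rfl
      · exact h3.1
      · exact h3.2
    · exfalso
      rw [not_or] at h
      obtain ⟨x, hx⟩ := Finset.card_pos.1 (show 0 < s.card by omega)
      induction x using OnePoint.rec with
      | infty => exact h.1 hx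
      | coe x =>
        have hx0 : x ≠ 0 := by rintro rfl; exact h.2 hx
        have h3 := hmz _ hx
        rw [hz.coe] at h3
        have h4 := hmw _ hx
        rw [hw.coe x hx0] at h4
        have hne : (x : OnePoint K) ≠ ((-1 * x : K) : OnePoint K) := by
          rw [ne_eq, OnePoint.coe_eq_coe]
          intro e
          have : 2 * x = 0 := by linear_combination e
          rcases mul_eq_zero.1 this with h5 | h5
          · exact h2 h5
          · exact hx0 h5
        have h5 : ({(x : OnePoint K), ((-1 * x : K) : OnePoint K)} : Finset (OnePoint K)) = s := by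
          apply Finset.eq_of_subset_of_card_le
          · intro y hy
            rw [Finset.mem_insert, Finset.mem_singleton] at hy
            rcases hy with rfl | rfl
            · exact hx
            · exact h3
          · rw [hs, Finset.card_pair hne]
        rw [← h5, Finset.mem_insert, Finset.mem_singleton, OnePoint.coe_eq_coe,
          OnePoint.coe_eq_coe] at h4
        apply ha
        rcases h4 with h4 | h4
        · refine ⟨x, ?_⟩
          rw [div_eq_iff hx0] at h4
          exact h4
        · refine ⟨i * x, ?_⟩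
          rw [div_eq_iff hx0] at h4
          rw [h4]
          linear_combination (-x ^ 2) * hi
  exact (Finset.eq_of_subset_of_card_le hE (by rw [hs, card_E0])).symm

/-- a `2`-group of permutations of a set of `4 m + 2` elements leaves a pair invariant -/
lemma pair_exists {X : Type*} [Fintype X] [DecidableEq X] (hX : Fintype.card X % 4 = 2)
    {Q : Subgroup (Equiv.Perm X)} (hQ : IsPGroup 2 Q) :
    ∃ s : Finset X, s.card = 2 ∧ ∀ g ∈ Q, s.image g = s := by
  letI act : MulAction Q {s : Finset X // s.card = 2} :=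
    { smul := fun g s => ⟨s.1.image g.1, by
        rw [Finset.card_image_of_injective _ g.1.injective, s.2]⟩
      one_smul := fun s => Subtype.ext Finset.image_id
      mul_smul := fun g h s => by
        apply Subtype.ext
        show s.1.image (g * h).1 = (s.1.image h.1).image g.1
        rw [Finset.image_image]
        rfl }
  have : Fact (Nat.Prime 2) := ⟨Nat.prime_two⟩
  have h1 : ¬ 2 ∣ Nat.card {s : Finset X // s.card = 2} := by
    rw [Nat.card_eq_fintype_card, Fintype.card_finset_len]
    obtain ⟨m, hm⟩ : ∃ m, Fintype.card X = 4 * m + 2 := ⟨Fintype.card X / 4, by omega⟩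
    rw [hm, Nat.choose_two_right]
    have h2 : (4 * m + 2) * (4 * m + 2 - 1) = 2 * ((2 * m + 1) * (4 * m + 1)) := by
      have : 4 * m + 2 - 1 = 4 * m + 1 := by omega
      rw [this]; ring
    rw [h2, Nat.mul_div_cancel_left _ (by norm_num)]
    intro h3
    rcases (Nat.prime_two.dvd_mul).1 h3 with h4 | h4 <;> omega
  obtain ⟨s, hs⟩ := hQ.nonempty_fixed_point_of_prime_not_dvd_card
    {s : Finset X // s.card = 2} h1
  refine ⟨s.1, s.2, fun g hg => ?_⟩
  have h2 := hs ⟨g, hg⟩
  exact congrArg Subtype.val h2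

end

end Pool.Agent.N86.S9
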