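import Pool.Agent.N86.S9.AtMost
import Pool.Agent.N86.S8.Small

/-!
# `PGL(2, q)` is not block-transitive on a `6`-design with odd `λ`, if `q ≡ 3 (mod 4)`
-/

set_option autoImplicit false

namespace Pool.Agent.N86.S9

open Finset Matrix Pool.Agent.N86.S6 Pool.Agent.N86.S4 Pool.Agent.N86.S46 Pool.Agent.N86.S7
  Pool.Agent.N86.S8

/-- the number of the invariant blocks through an invariant `6`-set is odd -/
lemma odd_inv_blocks {X : Type*} [Fintype X] [DecidableEq X] {t k lam : ℕ}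
    {𝓑 : Finset (Finset X)} (hD : IsDesign t k lam 𝓑) (hlam : Odd lam) (a b : Equiv.Perm X)
    (ha : ∀ x, a (a x) = x) (hb : ∀ x, b (b x) = x) (hab : ∀ x, a (b x) = b (a x))
    (hBa : ∀ B ∈ 𝓑, B.image a ∈ 𝓑) (hBb : ∀ B ∈ 𝓑, B.image b ∈ 𝓑) (S : Finset X)
    (hS : S.card = t) (hSa : S.image a = S) (hSb : S.image b = S) :
    Odd (((𝓑.filter (fun B => S ⊆ B)).filter (fun B => B.image a = B)).filter
      (fun B => B.image b = B)).card := by
  have h1 := hD.2 S hS
  have h2 : Odd (𝓑.filter (fun B => S ⊆ B)).card := by rw [h1]; exact hlam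
  have hmem : ∀ τ : Equiv.Perm X, (∀ B ∈ 𝓑, B.image τ ∈ 𝓑) → S.image τ = S →
      ∀ B ∈ 𝓑.filter (fun B => S ⊆ B), B.image τ ∈ 𝓑.filter (fun B => S ⊆ B) := by
    intro τ hB hSτ B hB'
    rw [Finset.mem_filter] at hB' ⊢
    refine ⟨hB B hB'.1, ?_⟩
    rw [← hSτ]
    exact Finset.image_subset_image hB'.2
  rw [odd_fixed _ (fun B => B.image a) (hmem a hBa hSa) (fun B _ => image_image_inv a ha B)] at h2
  rw [odd_fixed _ (fun B => B.image b) ?_ (fun B _ => image_image_inv b hb B)] at h2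
  · exact h2
  · intro B hB
    rw [Finset.mem_filter] at hB ⊢
    refine ⟨hmem b hBb hSb B hB.1, ?_⟩
    rw [Finset.image_image]
    have h3 : (a ∘ b : X → X) = b ∘ a := funext hab
    rw [h3, ← Finset.image_image, hB.2]

section
variable {K : Type*} [Field K] [DecidableEq K]

lemma tau_isInv : IsInv (tau (0 : K) 1) (-1) where
  ne := neg_ne_zero.2 one_ne_zero
  inf := tau_infty 0 1
  zero := tau_coe_self 0 1
  coe x hx := by
    rw [tau_coe 0 1 x hx]
    congr 1
    rw [Units.val_one, one_pow, sub_zero, zero_sub, neg_div]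

/-- the points `x, -x, 1 / x, - 1 / x` -/
noncomputable def orb (x : K) : Finset (OnePoint K) :=
  {(x : OnePoint K), ((-x : K) : OnePoint K), ((x⁻¹ : K) : OnePoint K),
    ((-x⁻¹ : K) : OnePoint K)}

lemma mem_orb {x : K} {y : OnePoint K} : y ∈ orb x ↔ y = (x : OnePoint K) ∨
    y = ((-x : K) : OnePoint K) ∨ y = ((x⁻¹ : K) : OnePoint K) ∨
    y = ((-x⁻¹ : K) : OnePoint K) := by
  simp only [orb, Finset.mem_insert, Finset.mem_singleton]

/-- the points `1, -1` -/
noncomputable def E1 (K : Type*) [Field K] [DecidableEq K] : Finset (OnePoint K) :=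
  {((1 : K) : OnePoint K), ((-1 : K) : OnePoint K)}

lemma mem_E1 {y : OnePoint K} : y ∈ E1 K ↔ y = ((1 : K) : OnePoint K) ∨
    y = ((-1 : K) : OnePoint K) := by
  simp only [E1, Finset.mem_insert, Finset.mem_singleton]

variable {x : K}

lemma card_orb (h2 : (2 : K) ≠ 0) (hx : x ≠ 0) (hx1 : x * x ≠ 1) (hx2 : x * x ≠ -1) :
    (orb x).card = 4 := by
  have f1 : x ≠ -x := by
    intro e
    have : 2 * x = 0 := by linear_combination e
    rcases mul_eq_zero.1 this with h | h
    · exact h2 h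
    · exact hx h
  have f1' : x⁻¹ ≠ -x⁻¹ := by
    intro e
    have : 2 * x⁻¹ = 0 := by linear_combination e
    rcases mul_eq_zero.1 this with h | h
    · exact h2 h
    · exact inv_ne_zero hx h
  have f2 : x ≠ x⁻¹ := by
    intro e
    apply hx1
    have : x * x = x * x⁻¹ := by rw [← e]
    rw [this, mul_inv_cancel₀ hx]
  have f3 : x ≠ -x⁻¹ := by
    intro e
    apply hx2
    have : x * x = x * (-x⁻¹) := by rw [← e]
    rw [this, mul_neg, mul_inv_cancel₀ hx]
  have f4 : -x ≠ x⁻¹ := fun e => f3 (by linear_combination -e)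
  have f5 : -x ≠ -x⁻¹ := fun e => f2 (neg_injective e)
  unfold orb
  rw [Finset.card_insert_of_notMem, Finset.card_insert_of_notMem, Finset.card_insert_of_notMem,
    Finset.card_singleton]
  · rw [Finset.mem_singleton, OnePoint.coe_eq_coe]; exact f1'
  · simp only [Finset.mem_insert, Finset.mem_singleton, OnePoint.coe_eq_coe, not_or]
    exact ⟨f4, f5⟩
  · simp only [Finset.mem_insert, Finset.mem_singleton, OnePoint.coe_eq_coe, not_or]
    exact ⟨f1, f2, f3⟩

lemma orb_z (hx : x ≠ 0) : ∀ y ∈ orb x, tau (0 : K) 1 y ∈ orb x := by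
  have hz := tau_isInv (K := K)
  intro y hy
  rw [mem_orb] at hy ⊢
  rcases hy with rfl | rfl | rfl | rfl
  · right; right; right; rw [hz.coe x hx, neg_div, one_div]
  · right; right; left
    rw [hz.coe _ (neg_ne_zero.2 hx), neg_div_neg_eq, one_div]
  · right; left
    rw [hz.coe _ (inv_ne_zero hx), neg_div, one_div, inv_inv]
  · left
    rw [hz.coe _ (neg_ne_zero.2 (inv_ne_zero hx)), neg_div_neg_eq, one_div, inv_inv]

lemma orb_s {σ : Equiv.Perm (OnePoint K)} (hσ : IsMul σ (-1)) : ∀ y ∈ orb x, σ y ∈ orb x := by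
  intro y hy
  rw [mem_orb] at hy ⊢
  rcases hy with rfl | rfl | rfl | rfl
  · right; left; rw [hσ.coe, neg_one_mul]
  · left; rw [hσ.coe, neg_one_mul, neg_neg]
  · right; right; right; rw [hσ.coe, neg_one_mul]
  · right; right; left; rw [hσ.coe, neg_one_mul, neg_neg]

lemma E0_z : ∀ y ∈ E0 K, tau (0 : K) 1 y ∈ E0 K := by
  intro y hy
  rw [mem_E0] at hy ⊢
  rcases hy with rfl | rfl
  · right; exact (tau_isInv (K := K)).inf
  · left; exact (tau_isInv (K := K)).zero

lemma E0_s {σ : Equiv.Perm (OnePoint K)} (hσ : IsMul σ (-1)) : ∀ y ∈ E0 K, σ y ∈ E0 K := by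
  intro y hy
  rw [mem_E0] at hy ⊢
  rcases hy with rfl | rfl
  · left; exact hσ.inf
  · right; rw [hσ.coe, mul_zero]

lemma E1_z : ∀ y ∈ E1 K, tau (0 : K) 1 y ∈ E1 K := by
  have hz := tau_isInv (K := K)
  intro y hy
  rw [mem_E1] at hy ⊢
  rcases hy with rfl | rfl
  · right; rw [hz.coe _ one_ne_zero, div_one]
  · left; rw [hz.coe _ (neg_ne_zero.2 one_ne_zero), neg_div_neg_eq, div_one]

lemma E1_s {σ : Equiv.Perm (OnePoint K)} (hσ : IsMul σ (-1)) : ∀ y ∈ E1 K, σ y ∈ E1 K := by
  intro y hy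
  rw [mem_E1] at hy ⊢
  rcases hy with rfl | rfl
  · right; rw [hσ.coe, mul_one]
  · left; rw [hσ.coe, neg_one_mul, neg_neg]

lemma disj0 (hx : x ≠ 0) : Disjoint (E0 K) (orb x) := by
  rw [Finset.disjoint_left]
  intro y hy hy'
  rw [mem_E0] at hy
  rw [mem_orb] at hy'
  rcases hy with rfl | rfl
  · rcases hy' with h | h | h | h <;> exact OnePoint.infty_ne_coe _ h
  · simp only [OnePoint.coe_eq_coe] at hy'
    rcases hy' with h | h | h | h
    · exact hx h.symm
    · exact neg_ne_zero.2 hx h.symm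
    · exact inv_ne_zero hx h.symm
    · exact neg_ne_zero.2 (inv_ne_zero hx) h.symm

lemma disj1 (hx : x ≠ 0) (hx1 : x * x ≠ 1) : Disjoint (E1 K) (orb x) := by
  rw [Finset.disjoint_left]
  intro y hy hy'
  rw [mem_E1] at hy
  rw [mem_orb] at hy'
  have key : ∀ e : K, e * e = 1 → ¬ (e = x ∨ e = -x ∨ e = x⁻¹ ∨ e = -x⁻¹) := by
    rintro e he (h | h | h | h)
    · apply hx1; rw [← h, he]
    · apply hx1; rw [← he, h]; ring
    · apply hx1
      rw [h] at he
      field_simp at he
      linear_combination -he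
    · apply hx1
      rw [h] at he
      field_simp at he
      linear_combination -he
  rcases hy with rfl | rfl
  · simp only [OnePoint.coe_eq_coe] at hy'
    exact key 1 (by ring) hy'
  · simp only [OnePoint.coe_eq_coe] at hy'
    exact key (-1) (by ring) hy'

lemma card_E1 (h2 : (2 : K) ≠ 0) : (E1 K).card = 2 := by
  refine Finset.card_pair ?_
  rw [ne_eq, OnePoint.coe_eq_coe]
  intro e
  exact h2 (by linear_combination e)

variable [Fintype K]

/-- the order of `PGL(2, q)` -/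
theorem card_pgl {G : Subgroup (Equiv.Perm (OnePoint K))}
    (hGL : ∀ A : GL (Fin 2) K, glPerm A ∈ G) (hG : ∀ g ∈ G, ∃ A : GL (Fin 2) K, g = glPerm A) :
    Nat.card G = (Fintype.card K + 1) * Fintype.card K * (Fintype.card K - 1) := by
  classical
  have h0 : Fintype.card (Fin 3 ↪ OnePoint K) =
      (Fintype.card K + 1) * Fintype.card K * (Fintype.card K - 1) := by
    rw [Fintype.card_embedding_eq, card_line, Fintype.card_fin]
    simp only [Nat.descFactorial_succ, Nat.descFactorial_zero, Nat.sub_zero, mul_one,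
      Nat.add_sub_cancel]
    have h2 : Fintype.card K + 1 - 2 = Fintype.card K - 1 := by omega
    rw [h2]
    ring
  rw [← h0, ← Nat.card_eq_fintype_card]
  let Φ : G → (Fin 3 ↪ OnePoint K) := fun g =>
    ⟨fun i => g.1 (base K i), fun i j h => (base K).injective (g.1.injective h)⟩
  refine Nat.card_congr (Equiv.ofBijective Φ ⟨?_, ?_⟩)
  · rintro ⟨g, hg⟩ ⟨h, hh⟩ e
    have h1 : ∀ i, g (base K i) = h (base K i) := fun i =>
      congrArg (fun φ : Fin 3 ↪ OnePoint K => φ i) e
    have hI : g OnePoint.infty = h OnePoint.infty := h1 0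
    have hZ : g ((0 : K) : OnePoint K) = h ((0 : K) : OnePoint K) := h1 1
    have hO : g ((1 : K) : OnePoint K) = h ((1 : K) : OnePoint K) := h1 2
    apply Subtype.ext
    show g = h
    obtain ⟨A, hA⟩ := hG (h⁻¹ * g) (G.mul_mem (G.inv_mem hh) hg)
    have hhi : ∀ y, h⁻¹ (h y) = y := fun y => h.symm_apply_apply y
    have v1 : (h⁻¹ * g) OnePoint.infty = OnePoint.infty := by
      rw [Equiv.Perm.mul_apply, hI, hhi]
    have v2 : (h⁻¹ * g) ((0 : K) : OnePoint K) = ((0 : K) : OnePoint K) := by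
      rw [Equiv.Perm.mul_apply, hZ, hhi]
    have v3 : (h⁻¹ * g) ((1 : K) : OnePoint K) = ((1 : K) : OnePoint K) := by
      rw [Equiv.Perm.mul_apply, hO, hhi]
    have himg : (E0 K).image (glPerm A) = E0 K := by
      rw [← hA, E0, Finset.image_insert, Finset.image_singleton, v1, v2]
    obtain ⟨c, hc | hc⟩ := pres A himg
    · rw [← hA] at hc
      have h3 := hc.coe 1
      rw [v3, OnePoint.coe_eq_coe, mul_one] at h3
      rw [← h3] at hc
      have h4 := hc.ext IsMul.one
      calc g = h * (h⁻¹ * g) := by group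
        _ = h := by rw [h4, mul_one]
    · rw [← hA] at hc
      have h3 := hc.inf
      rw [v1] at h3
      exact absurd h3 (OnePoint.infty_ne_coe _)
  · intro φ
    obtain ⟨A, hA⟩ := exists_gl φ
    refine ⟨⟨glPerm A, hGL A⟩, ?_⟩
    ext i
    exact hA i

end

/-- the arithmetic -/
lemma arith {q k lam c : ℕ} (hk : 2 * k = q + 5) (hq : 13 ≤ q)
    (h : p6 k = lam * ((q - 2) * (q - 3) * (q - 4)) * c) : False := by
  have h1 : 64 * p6 k = (q + 5) * (q + 3) * (q + 1) * (q - 1) * (q - 3) * (q - 5) := by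
    have e0 : q + 5 = 2 * k := hk.symm
    have e1 : q + 3 = 2 * (k - 1) := by omega
    have e2 : q + 1 = 2 * (k - 2) := by omega
    have e3 : q - 1 = 2 * (k - 3) := by omega
    have e4 : q - 3 = 2 * (k - 4) := by omega
    have e5 : q - 5 = 2 * (k - 5) := by omega
    rw [e0, e1, e2, e3, e4, e5, p6]
    ring
  rw [h] at h1
  obtain ⟨n, rfl⟩ : ∃ n, q = n + 5 := ⟨q - 5, by omega⟩
  have s1 : n + 5 - 1 = n + 4 := by omega
  have s2 : n + 5 - 2 = n + 3 := by omega
  have s3 : n + 5 - 3 = n + 2 := by omega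
  have s4 : n + 5 - 4 = n + 1 := by omega
  have s5 : n + 5 - 5 = n := by omega
  rw [s1, s2, s3, s4, s5] at h1
  have h2 : (n + 3) * (n + 1) ∣ (n + 10) * (n + 8) * (n + 6) * (n + 4) * n := by
    have h3 : (n + 2) * ((n + 3) * (n + 1) * (64 * lam * c)) =
        (n + 2) * ((n + 10) * (n + 8) * (n + 6) * (n + 4) * n) := by
      linear_combination h1
    have h4 := Nat.eq_of_mul_eq_mul_left (by omega) h3
    refine ⟨64 * lam * c, ?_⟩
    rw [← h4]
  have h3 : (n + 3) ∣ 315 := by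
    have h4 : (n + 3) ∣ (n + 10) * (n + 8) * (n + 6) * (n + 4) * n :=
      (Dvd.intro _ rfl).trans h2
    have h5 : (n + 10) * (n + 8) * (n + 6) * (n + 4) * n + 315 =
        (n + 3) * (n ^ 4 + 25 * n ^ 3 + 209 * n ^ 2 + 605 * n + 105) := by ring
    exact (Nat.dvd_add_right h4).1 ⟨_, h5⟩
  have h3' : (n + 1) ∣ 945 := by
    have h4 : (n + 1) ∣ (n + 10) * (n + 8) * (n + 6) * (n + 4) * n :=
      (Dvd.intro_left _ rfl).trans h2
    have h5 : (n + 10) * (n + 8) * (n + 6) * (n + 4) * n + 945 =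
        (n + 1) * (n ^ 4 + 27 * n ^ 3 + 257 * n ^ 2 + 975 * n + 945) := by ring
    exact (Nat.dvd_add_right h4).1 ⟨_, h5⟩
  have h6 : n < 313 := by
    have := Nat.le_of_dvd (by norm_num) h3
    omega
  have key : ∀ n < 313, 8 ≤ n → (n + 3) ∣ 315 → (n + 1) ∣ 945 → False := by decide +kernel
  exact key n h6 (by omega) h3 h3'

end Pool.Agent.N86.S9
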