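import Pool.Agent.N86.S9.Pgl3

/-!
# `PGL(2, q)` is not block-transitive on a `6`-design with odd `λ`, if `q ≡ 3 (mod 4)`: the proof
-/

set_option autoImplicit false

namespace Pool.Agent.N86.S9

open Finset Matrix Pool.Agent.N86.S6 Pool.Agent.N86.S4 Pool.Agent.N86.S46 Pool.Agent.N86.S7
  Pool.Agent.N86.S8

universe u

variable {K : Type u} [Field K] [DecidableEq K] [Fintype K]

/-- the divisibility for `PGL(2, q)` -/
lemma pgl_facts {k lam : ℕ} {𝓑 : Finset (Finset (OnePoint K))} (hD : IsDesign 6 k lam 𝓑)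
    {G : Subgroup (Equiv.Perm (OnePoint K))}
    (hGL : ∀ A : GL (Fin 2) K, glPerm A ∈ G) (hG : ∀ g ∈ G, ∃ A : GL (Fin 2) K, g = glPerm A)
    (hinv : ∀ g ∈ G, ∀ B ∈ 𝓑, B.image g ∈ 𝓑) {B0 : Finset (OnePoint K)} (hB0 : B0 ∈ 𝓑)
    (htr : ∀ B ∈ 𝓑, ∃ g ∈ G, B = B0.image g) (hq6 : 6 ≤ Fintype.card K) :
    ∃ c, p6 k =
      lam * ((Fintype.card K - 2) * (Fintype.card K - 3) * (Fintype.card K - 4)) * c := by
  obtain ⟨c, hc⟩ := dvd_order G hB0 hinv htr
  rw [card_pgl hGL hG] at hc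
  refine ⟨c, ?_⟩
  have h4 := count_through hD ∅ (by simp)
  have h5 : 𝓑.filter (fun B => ∅ ⊆ B) = 𝓑 := by
    rw [Finset.filter_eq_self]
    intro B _
    exact Finset.empty_subset B
  rw [h5, Finset.card_empty, Nat.sub_zero, Nat.sub_zero, Nat.sub_zero, card_line] at h4
  have h6 : 𝓑.card * p6 k = lam * p6 (Fintype.card K + 1) := by
    rw [p6_choose, p6_choose]
    calc 𝓑.card * (720 * k.choose 6) = 720 * (𝓑.card * k.choose 6) := by ring
      _ = 720 * (lam * (Fintype.card K + 1).choose 6) := by rw [h4]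
      _ = _ := by ring
  rw [p6_line hq6] at h6
  have hN : 0 < (Fintype.card K + 1) * Fintype.card K * (Fintype.card K - 1) :=
    Nat.mul_pos (Nat.mul_pos (by omega) (by omega)) (by omega)
  generalize (Fintype.card K + 1) * Fintype.card K * (Fintype.card K - 1) = N at *
  generalize (Fintype.card K - 2) * (Fintype.card K - 3) * (Fintype.card K - 4) = T at *
  refine Nat.eq_of_mul_eq_mul_left hN ?_
  calc N * p6 k = (𝓑.card * c) * p6 k := by rw [hc]
    _ = c * (𝓑.card * p6 k) := by ring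
    _ = c * (lam * (N * T)) := by rw [h6]
    _ = N * (lam * T * c) := by ring

/-- **`PGL(2, q)` is not block-transitive on a `6`-design with odd `λ`, if `q ≡ 3 (mod 4)`.** -/
theorem pgl3_none {k lam : ℕ} {𝓑 : Finset (Finset (OnePoint K))} (hD : IsDesign 6 k lam 𝓑)
    (hlam : Odd lam) (hk6 : 6 < k) (hq : Fintype.card K % 4 = 3)
    {G : Subgroup (Equiv.Perm (OnePoint K))}
    (hGL : ∀ A : GL (Fin 2) K, glPerm A ∈ G) (hG : ∀ g ∈ G, ∃ A : GL (Fin 2) K, g = glPerm A)
    (hinv : ∀ g ∈ G, ∀ B ∈ 𝓑, B.image g ∈ 𝓑) {B0 : Finset (OnePoint K)} (hB0 : B0 ∈ 𝓑)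
    (htr : ∀ B ∈ 𝓑, ∃ g ∈ G, B = B0.image g) {C : Finset (OnePoint K)} (hC : C.card = k)
    (hC' : C ∉ 𝓑) : False := by
  have h20 : (2 : K) ≠ 0 := two_ne_zero_of_odd (by rw [Nat.odd_iff]; omega)
  have hgap := gap hD (by omega) hB0 hC hC'
  rw [card_line] at hgap
  have htr2 : ∀ B ∈ 𝓑, ∀ B' ∈ 𝓑, ∃ g ∈ G, B' = B.image g := by
    intro B hB B' hB'
    obtain ⟨g, hg, rfl⟩ := htr B hB
    obtain ⟨g', hg', rfl⟩ := htr B' hB'
    refine ⟨g' * g⁻¹, G.mul_mem hg' (G.inv_mem hg), ?_⟩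
    rw [Finset.image_image]
    have h1 : (⇑(g' * g⁻¹) : OnePoint K → OnePoint K) ∘ g = g' := by
      funext x
      show g' (g⁻¹ (g x)) = g' x
      congr 1
      exact g.symm_apply_apply x
    rw [h1]
  have hns := neg_one_nonsquare hq
  have hno : ∀ x : K, x * x ≠ -1 := fun x h => hns ⟨x, h.symm⟩
  obtain ⟨L, _, _, ⟨Q⟩⟩ := exists_quad2 (K := K) (-1) 0 (fun x h => hno x (by
    rw [zero_mul, add_zero, sq] at h; exact h))
  obtain ⟨Aσ, hσ⟩ := exists_isMul (neg_ne_zero.2 (one_ne_zero (α := K)))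
  have hσG : glPerm Aσ ∈ G := hGL Aσ
  generalize glPerm Aσ = σ at hσ hσG
  have hzG : tau (0 : K) 1 ∈ G := hGL (SpecialLinearGroup.toGL (tauMat 0 1))
  have hz := tau_isInv (K := K)
  have hσσ : σ * σ = 1 := by
    have h1 := hσ.mul hσ
    rw [neg_mul_neg, one_mul] at h1
    exact h1.ext IsMul.one
  have hσσ' : ∀ x, σ (σ x) = x := fun x => by rw [← Equiv.Perm.mul_apply, hσσ]; rfl
  have hzσ : tau (0 : K) 1 * σ = σ * tau 0 1 := by
    have h1 := hz.mul_isMul hσ
    have h3 := hσ.mul_isInv hz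
    have h4 : (-1 : K) / -1 = -1 * -1 := by
      rw [div_self (neg_ne_zero.2 one_ne_zero)]; ring
    rw [h4] at h1
    exact h1.ext h3
  have hzσ' : ∀ x, tau (0 : K) 1 (σ x) = σ (tau 0 1 x) := fun x => by
    rw [← Equiv.Perm.mul_apply, hzσ]; rfl
  -- invariant blocks
  let Inv : Finset (OnePoint K) → Prop := fun B =>
    B ∈ 𝓑 ∧ B.image (tau (0 : K) 1) = B ∧ B.image σ = B
  have htwo : ∀ B1 B2 B3, Inv B1 → Inv B2 → Inv B3 → B1 = B2 ∨ B1 = B3 ∨ B2 = B3 := by
    intro B1 B2 B3 h1 h2 h3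
    exact two_blocks Q hq hG htr2 hσ h1.1 h2.1 h3.1 ⟨hzG, h1.2.1⟩ ⟨hσG, h1.2.2⟩ ⟨hzG, h2.2.1⟩
      ⟨hσG, h2.2.2⟩ ⟨hzG, h3.2.1⟩ ⟨hσG, h3.2.2⟩
  have hIz : ∀ B, Inv B → ∀ y ∈ B, tau (0 : K) 1 y ∈ B := fun B hB y hy => by
    rw [← hB.2.1]; exact Finset.mem_image_of_mem _ hy
  have hIs : ∀ B, Inv B → ∀ y ∈ B, σ y ∈ B := fun B hB y hy => by
    rw [← hB.2.2]; exact Finset.mem_image_of_mem _ hy
  have hmemW : ∀ S B, B ∈ ((𝓑.filter (fun B => S ⊆ B)).filter
      (fun B => B.image (tau (0 : K) 1) = B)).filter (fun B => B.image σ = B) ↔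
      Inv B ∧ S ⊆ B := by
    intro S B
    rw [Finset.mem_filter, Finset.mem_filter, Finset.mem_filter]
    exact ⟨fun h => ⟨⟨h.1.1.1, h.1.2, h.2⟩, h.1.1.2⟩, fun h => ⟨⟨⟨h.1.1, h.2⟩, h.1.2.1⟩, h.1.2.2⟩⟩
  have hodd : ∀ S : Finset (OnePoint K), S.card = 6 → S.image (tau (0 : K) 1) = S →
      S.image σ = S → (∃ B, Inv B ∧ S ⊆ B) ∧
        ∀ B1 B2, Inv B1 → Inv B2 → B1 ≠ B2 → ¬ (S ⊆ B1 ∧ S ⊆ B2) := by
    intro S hS hSz hSs
    have h1 := odd_inv_blocks hD hlam (tau 0 1) σ (tau_tau 0 1) hσσ' hzσ'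
      (fun B hB => hinv _ hzG B hB) (fun B hB => hinv _ hσG B hB) S hS hSz hSs
    constructor
    · obtain ⟨B, hB⟩ := Finset.card_pos.1 h1.pos
      exact ⟨B, (hmemW S B).1 hB⟩
    · rintro B1 B2 hB1 hB2 hne ⟨hS1, hS2⟩
      have h2 : ((𝓑.filter (fun B => S ⊆ B)).filter
          (fun B => B.image (tau (0 : K) 1) = B)).filter (fun B => B.image σ = B) = {B1, B2} := by
        ext B
        rw [hmemW, Finset.mem_insert, Finset.mem_singleton]
        constructor
        · rintro ⟨hB, -⟩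
          rcases htwo B B1 B2 hB hB1 hB2 with h | h | h
          · left; exact h
          · right; exact h
          · exact absurd h hne
        · rintro (rfl | rfl)
          · exact ⟨hB1, hS1⟩
          · exact ⟨hB2, hS2⟩
      rw [h2, Finset.card_pair hne] at h1
      exact absurd h1 (by decide)
  have hT0 : ∀ x : K, x ≠ 0 → x * x ≠ 1 → (E0 K ∪ orb x).card = 6 ∧
      (E0 K ∪ orb x).image (tau (0 : K) 1) = E0 K ∪ orb x ∧
      (E0 K ∪ orb x).image σ = E0 K ∪ orb x := by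
    intro x hx hx1
    refine ⟨?_, image_eq_of_maps fun y hy => ?_, image_eq_of_maps fun y hy => ?_⟩
    · rw [Finset.card_union_of_disjoint (disj0 hx), card_E0, card_orb h20 hx hx1 (hno x)]
    · rw [Finset.mem_union] at hy ⊢
      rcases hy with hy | hy
      · left; exact E0_z y hy
      · right; exact orb_z hx y hy
    · rw [Finset.mem_union] at hy ⊢
      rcases hy with hy | hy
      · left; exact E0_s hσ y hy
      · right; exact orb_s hσ y hy
  have hT1 : ∀ x : K, x ≠ 0 → x * x ≠ 1 → (E1 K ∪ orb x).card = 6 ∧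
      (E1 K ∪ orb x).image (tau (0 : K) 1) = E1 K ∪ orb x ∧
      (E1 K ∪ orb x).image σ = E1 K ∪ orb x := by
    intro x hx hx1
    refine ⟨?_, image_eq_of_maps fun y hy => ?_, image_eq_of_maps fun y hy => ?_⟩
    · rw [Finset.card_union_of_disjoint (disj1 hx hx1), card_E1 h20, card_orb h20 hx hx1 (hno x)]
    · rw [Finset.mem_union] at hy ⊢
      rcases hy with hy | hy
      · left; exact E1_z y hy
      · right; exact orb_z hx y hy
    · rw [Finset.mem_union] at hy ⊢
      rcases hy with hy | hy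
      · left; exact E1_s hσ y hy
      · right; exact orb_s hσ y hy
  have hxorb : ∀ x : K, (x : OnePoint K) ∈ orb x := fun x => mem_orb.2 (Or.inl rfl)
  -- the points
  have hpts : ∀ y : OnePoint K, y ∈ E0 K ∨ y ∈ E1 K ∨ ∃ x : K, x ≠ 0 ∧ x * x ≠ 1 ∧ y = x := by
    intro y
    induction y using OnePoint.rec with
    | infty => left; exact mem_E0.2 (Or.inl rfl)
    | coe x =>
      by_cases hx : x = 0
      · left; rw [hx]; exact mem_E0.2 (Or.inr rfl)
      by_cases hx1 : x * x = 1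
      · right; left
        rcases mul_self_eq_one_iff.1 hx1 with h | h
        · rw [h]; exact mem_E1.2 (Or.inl rfl)
        · rw [h]; exact mem_E1.2 (Or.inr rfl)
      · right; right; exact ⟨x, hx, hx1, rfl⟩
  obtain ⟨x0, hx0, hx01⟩ : ∃ x : K, x ≠ 0 ∧ x * x ≠ 1 := by
    by_contra hcon
    have h1 : (Finset.univ : Finset (OnePoint K)) ⊆ E0 K ∪ E1 K := by
      intro y _
      rw [Finset.mem_union]
      rcases hpts y with h | h | ⟨x, hx, hx1, -⟩
      · left; exact h
      · right; exact h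
      · exact absurd ⟨x, hx, hx1⟩ hcon
    have h2 := Finset.card_le_card h1
    have h3 := Finset.card_union_le (E0 K) (E1 K)
    rw [card_E0, card_E1 h20] at h3
    rw [Finset.card_univ, card_line] at h2
    omega
  obtain ⟨t1, t2, t3⟩ := hT0 x0 hx0 hx01
  obtain ⟨B1, hB1, hS1⟩ := (hodd _ t1 t2 t3).1
  by_cases hone : ∀ B, Inv B → B = B1
  · -- one block
    have hall : B1 = Finset.univ := by
      ext y
      refine ⟨fun _ => Finset.mem_univ _, fun _ => ?_⟩
      rcases hpts y with h | h | ⟨x, hx, hx1, rfl⟩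
      · exact hS1 (Finset.mem_union_left _ h)
      · obtain ⟨s1, s2, s3⟩ := hT1 x0 hx0 hx01
        obtain ⟨B, hB, hSB⟩ := (hodd _ s1 s2 s3).1
        rw [← hone B hB]
        exact hSB (Finset.mem_union_left _ h)
      · obtain ⟨s1, s2, s3⟩ := hT0 x hx hx1
        obtain ⟨B, hB, hSB⟩ := (hodd _ s1 s2 s3).1
        rw [← hone B hB]
        exact hSB (Finset.mem_union_right _ (hxorb x))
    have h3 := hD.1 B1 hB1.1
    rw [hall, Finset.card_univ, card_line] at h3
    omega
  · push Not at hone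
    obtain ⟨B2, hB2, hne⟩ := hone
    have hor : ∀ B, Inv B → B = B1 ∨ B = B2 := by
      intro B hB
      rcases htwo B B1 B2 hB hB1 hB2 with h | h | h
      · left; exact h
      · right; exact h
      · exact absurd h.symm hne
    have h0 : ∀ x : K, x ≠ 0 → x * x ≠ 1 → (E0 K ∪ orb x ⊆ B1 ∨ E0 K ∪ orb x ⊆ B2) ∧
        ¬ (E0 K ∪ orb x ⊆ B1 ∧ E0 K ∪ orb x ⊆ B2) := by
      intro x hx hx1
      obtain ⟨s1, s2, s3⟩ := hT0 x hx hx1
      obtain ⟨⟨B, hB, hSB⟩, h⟩ := hodd _ s1 s2 s3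
      refine ⟨?_, h B1 B2 hB1 hB2 hne.symm⟩
      rcases hor B hB with rfl | rfl
      · left; exact hSB
      · right; exact hSB
    have h1 : ∀ x : K, x ≠ 0 → x * x ≠ 1 → (E1 K ∪ orb x ⊆ B1 ∨ E1 K ∪ orb x ⊆ B2) := by
      intro x hx hx1
      obtain ⟨s1, s2, s3⟩ := hT1 x hx hx1
      obtain ⟨⟨B, hB, hSB⟩, -⟩ := hodd _ s1 s2 s3
      rcases hor B hB with rfl | rfl
      · left; exact hSB
      · right; exact hSB
    -- a block with a complement of at most two points
    have hbig : ∀ B, Inv B → ∀ E : Finset (OnePoint K), E.card ≤ 2 →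
        (∀ y, y ∉ E → y ∈ B) → False := by
      intro B hB E hE h
      have h3 : Finset.univ ⊆ B ∪ E := by
        intro y _
        rw [Finset.mem_union]
        by_cases hy : y ∈ E
        · right; exact hy
        · left; exact h y hy
      have h4 := Finset.card_le_card h3
      have h5 := Finset.card_union_le B E
      rw [Finset.card_univ, card_line] at h4
      rw [hD.1 B hB.1] at h5
      omega
    have hE0 : ∀ B B', Inv B' → (∀ x : K, x ≠ 0 → x * x ≠ 1 → E0 K ∪ orb x ⊆ B ∨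
        E0 K ∪ orb x ⊆ B') → E0 K ⊆ B := by
      intro B B' hB' h
      by_contra hcon
      refine hbig B' hB' (E1 K) (card_E1 h20).le fun y hy => ?_
      have h' : ∀ x : K, x ≠ 0 → x * x ≠ 1 → E0 K ∪ orb x ⊆ B' := by
        intro x hx hx1
        rcases h x hx hx1 with h2 | h2
        · exact absurd (Finset.union_subset_left h2) hcon
        · exact h2
      rcases hpts y with h2 | h2 | ⟨x, hx, hx1, rfl⟩
      · exact h' x0 hx0 hx01 (Finset.mem_union_left _ h2)
      · exact absurd h2 hy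
      · exact h' x hx hx1 (Finset.mem_union_right _ (hxorb x))
    have hE1 : ∀ B B', Inv B' → (∀ x : K, x ≠ 0 → x * x ≠ 1 → E1 K ∪ orb x ⊆ B ∨
        E1 K ∪ orb x ⊆ B') → E1 K ⊆ B := by
      intro B B' hB' h
      by_contra hcon
      refine hbig B' hB' (E0 K) card_E0.le fun y hy => ?_
      have h' : ∀ x : K, x ≠ 0 → x * x ≠ 1 → E1 K ∪ orb x ⊆ B' := by
        intro x hx hx1
        rcases h x hx hx1 with h2 | h2
        · exact absurd (Finset.union_subset_left h2) hcon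
        · exact h2
      rcases hpts y with h2 | h2 | ⟨x, hx, hx1, rfl⟩
      · exact absurd h2 hy
      · exact h' x0 hx0 hx01 (Finset.mem_union_left _ h2)
      · exact h' x hx hx1 (Finset.mem_union_right _ (hxorb x))
    have a1 := hE0 B1 B2 hB2 (fun x hx hx1 => (h0 x hx hx1).1)
    have a2 := hE0 B2 B1 hB1 (fun x hx hx1 => (h0 x hx hx1).1.symm)
    have b1 := hE1 B1 B2 hB2 h1
    have b2 := hE1 B2 B1 hB1 (fun x hx hx1 => (h1 x hx hx1).symm)
    have hunion : B1 ∪ B2 = Finset.univ := by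
      ext y
      refine ⟨fun _ => Finset.mem_univ _, fun _ => ?_⟩
      rw [Finset.mem_union]
      rcases hpts y with h | h | ⟨x, hx, hx1, rfl⟩
      · left; exact a1 h
      · left; exact b1 h
      · rcases (h0 x hx hx1).1 with h2 | h2
        · left; exact h2 (Finset.mem_union_right _ (hxorb x))
        · right; exact h2 (Finset.mem_union_right _ (hxorb x))
    have horb : ∀ B, Inv B → ∀ x : K, x ≠ 0 → (x : OnePoint K) ∈ B → orb x ⊆ B := by
      intro B hB x hx hxB y hy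
      have e1 := hIs B hB _ hxB
      rw [hσ.coe, neg_one_mul] at e1
      have e2 := hIz B hB _ e1
      rw [hz.coe _ (neg_ne_zero.2 hx), neg_div_neg_eq, one_div] at e2
      have e3 := hIs B hB _ e2
      rw [hσ.coe, neg_one_mul] at e3
      rcases mem_orb.1 hy with rfl | rfl | rfl | rfl
      · exact hxB
      · exact e1
      · exact e2
      · exact e3
    have hinter : B1 ∩ B2 = E0 K ∪ E1 K := by
      ext y
      rw [Finset.mem_inter, Finset.mem_union]
      constructor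
      · rintro ⟨hy1, hy2⟩
        rcases hpts y with h | h | ⟨x, hx, hx1, rfl⟩
        · left; exact h
        · right; exact h
        · exfalso
          exact (h0 x hx hx1).2 ⟨Finset.union_subset a1 (horb B1 hB1 x hx hy1),
            Finset.union_subset a2 (horb B2 hB2 x hx hy2)⟩
      · rintro (h | h)
        · exact ⟨a1 h, a2 h⟩
        · exact ⟨b1 h, b2 h⟩
    have hdisj : Disjoint (E0 K) (E1 K) := by
      rw [Finset.disjoint_left]
      intro y hy hy'
      rw [mem_E0] at hy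
      rw [mem_E1] at hy'
      rcases hy with rfl | rfl
      · rcases hy' with h | h <;> exact OnePoint.infty_ne_coe _ h
      · rcases hy' with h | h
        · exact zero_ne_one (OnePoint.coe_injective h)
        · exact neg_ne_zero.2 one_ne_zero (OnePoint.coe_injective h).symm
    have hsum := Finset.card_union_add_card_inter B1 B2
    rw [hunion, hinter, Finset.card_univ, card_line, Finset.card_union_of_disjoint hdisj, card_E0,
      card_E1 h20, hD.1 B1 hB1.1, hD.1 B2 hB2.1] at hsum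
    obtain ⟨c, hc⟩ := pgl_facts hD hGL hG hinv hB0 htr (by omega)
    exact arith (by omega) (by omega) hc

end Pool.Agent.N86.S9
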