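import Mathlib

/-!
# Maximal `2`-subgroups of subgroups, and transitive actions on sets of blocks
-/

set_option autoImplicit false

namespace Pool.Agent.N86.S9

open Pointwise

section abstract
variable {A : Type*} [Group A] [Finite A]

/-- `P` is a maximal `2`-subgroup of `H` -/
structure IsSyl (P H : Subgroup A) : Prop where
  le : P ≤ H
  pg : IsPGroup 2 P
  max : ∀ R : Subgroup A, R ≤ H → IsPGroup 2 R → P ≤ R → R = P

omit [Finite A] in
lemma isSyl_of_sylow {H : Subgroup A} (S : Sylow 2 H) :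
    IsSyl (S.toSubgroup.map H.subtype) H where
  le := by
    rintro _ ⟨x, -, rfl⟩
    exact x.2
  pg := S.isPGroup'.map _
  max R hR hp hle := by
    have h1 : IsPGroup 2 (R.subgroupOf H) := hp.comap_of_injective _ H.subtype_injective
    have h2 : S.toSubgroup ≤ R.subgroupOf H := by
      intro x hx
      rw [Subgroup.mem_subgroupOf]
      exact hle ⟨x, hx, rfl⟩
    have h3 := S.is_maximal' h1 h2
    rw [← h3, Subgroup.subgroupOf_map_subtype, inf_eq_left.2 hR]

lemma exists_syl {Q H : Subgroup A} (hQ : Q ≤ H) (hp : IsPGroup 2 Q) :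
    ∃ P, IsSyl P H ∧ Q ≤ P := by
  have h1 : IsPGroup 2 (Q.subgroupOf H) := hp.comap_of_injective _ H.subtype_injective
  obtain ⟨S, hS⟩ := h1.exists_le_sylow
  refine ⟨_, isSyl_of_sylow S, ?_⟩
  intro x hx
  exact ⟨⟨x, hQ hx⟩, hS (by rw [Subgroup.mem_subgroupOf]; exact hx), rfl⟩

omit [Finite A] in
lemma exists_sylow {P H : Subgroup A} (h : IsSyl P H) :
    ∃ S : Sylow 2 H, ∀ x : H, x ∈ S ↔ (x : A) ∈ P := by
  refine ⟨⟨P.subgroupOf H, h.pg.comap_of_injective _ H.subtype_injective, ?_⟩, ?_⟩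
  · intro Q hQ hle
    have h1 : Q.map H.subtype = P := by
      refine h.max _ ?_ (hQ.map _) ?_
      · rintro _ ⟨x, -, rfl⟩
        exact x.2
      · intro x hx
        exact ⟨⟨x, h.le hx⟩, hle (by rw [Subgroup.mem_subgroupOf]; exact hx), rfl⟩
    ext x
    rw [Subgroup.mem_subgroupOf, ← h1]
    constructor
    · intro hx
      exact ⟨x, hx, rfl⟩
    · rintro ⟨y, hy, hyx⟩
      have : y = x := H.subtype_injective hyx
      rwa [← this]
  · intro x
    exact Subgroup.mem_subgroupOf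

/-- two maximal `2`-subgroups of `H` are conjugate in `H` -/
lemma syl_conj {P Q H : Subgroup A} (hP : IsSyl P H) (hQ : IsSyl Q H) :
    ∃ h ∈ H, ∀ x, x ∈ Q ↔ h⁻¹ * x * h ∈ P := by
  obtain ⟨S, hS⟩ := exists_sylow hP
  obtain ⟨T, hT⟩ := exists_sylow hQ
  have : Fact (Nat.Prime 2) := ⟨Nat.prime_two⟩
  obtain ⟨g, hg⟩ := MulAction.exists_smul_eq H S T
  refine ⟨g, g.2, fun x => ?_⟩
  have key : ∀ y : H, (y : A) ∈ Q ↔ ((g : A)⁻¹ * y * g) ∈ P := by
    intro y
    rw [← hT y, ← hg]
    have h1 : y ∈ g • S ↔ g⁻¹ * y * g ∈ S := by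
      rw [Sylow.smul_def]
      have h2 : y ∈ (MulAut.conj g • S : Sylow 2 H) ↔
          y ∈ (MulAut.conj g • (S : Subgroup H)) := Iff.rfl
      rw [h2, Subgroup.mem_pointwise_smul_iff_inv_smul_mem]
      have h3 : (MulAut.conj g)⁻¹ • y = g⁻¹ * y * g := by
        rw [← map_inv]
        show g⁻¹ * y * (g⁻¹)⁻¹ = _
        rw [inv_inv]
      rw [h3]
      rfl
    rw [h1, hS]
    rfl
  constructor
  · intro hx
    exact (key ⟨x, hQ.le hx⟩).1 hx
  · intro hx
    have hxH : x ∈ H := by
      have h1 := hP.le hx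
      have h2 : x = g * ((g : A)⁻¹ * x * g) * (g : A)⁻¹ := by group
      rw [h2]
      exact H.mul_mem (H.mul_mem g.2 h1) (H.inv_mem g.2)
    exact (key ⟨x, hxH⟩).2 hx

/-- the conjugate subgroup -/
def cj (g : A) (P : Subgroup A) : Subgroup A := P.map (MulAut.conj g).toMonoidHom

omit [Finite A] in
lemma mem_cj {g : A} {P : Subgroup A} {x : A} : x ∈ cj g P ↔ g⁻¹ * x * g ∈ P := by
  constructor
  · rintro ⟨y, hy, rfl⟩
    show g⁻¹ * (g * y * g⁻¹) * g ∈ P
    have : g⁻¹ * (g * y * g⁻¹) * g = y := by group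
    rwa [this]
  · intro h
    refine ⟨_, h, ?_⟩
    show g * (g⁻¹ * x * g) * g⁻¹ = x
    group

omit [Finite A] in
lemma IsSyl.cj {P H : Subgroup A} (h : IsSyl P H) (g : A) : IsSyl (cj g P) (cj g H) where
  le := by
    intro x hx
    rw [mem_cj] at hx ⊢
    exact h.le hx
  pg := h.pg.map _
  max R hR hp hle := by
    have h1 : S9.cj g⁻¹ R = P := by
      refine h.max _ ?_ (hp.map _) ?_
      · intro x hx
        rw [mem_cj] at hx
        have h2 := hR hx
        rw [mem_cj] at h2
        have : g⁻¹ * (g⁻¹⁻¹ * x * g⁻¹) * g = x := by group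
        rwa [this] at h2
      · intro x hx
        rw [mem_cj]
        apply hle
        rw [mem_cj]
        have : g⁻¹ * (g⁻¹⁻¹ * x * g⁻¹) * g = x := by group
        rwa [this]
    ext x
    rw [mem_cj, ← h1, mem_cj]
    have : g⁻¹⁻¹ * (g⁻¹ * x * g) * g⁻¹ = x := by group
    rw [this]

/-- the subgroup of two commuting involutions -/
def four (a b : A) (ha : a * a = 1) (hb : b * b = 1) (hab : a * b = b * a) : Subgroup A where
  carrier := {g | g = 1 ∨ g = a ∨ g = b ∨ g = a * b}
  one_mem' := Or.inl rfl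
  mul_mem' := by
    have h1 : a * (a * b) = b := by rw [← mul_assoc, ha, one_mul]
    have h2 : b * (a * b) = a := by rw [hab, ← mul_assoc, hb, one_mul]
    have h3 : a * b * a = b := by rw [mul_assoc, ← hab, h1]
    have h4 : a * b * b = a := by rw [mul_assoc, hb, mul_one]
    have h5 : a * b * (a * b) = 1 := by rw [mul_assoc, h2, ha]
    rintro x y (rfl | rfl | rfl | rfl) (rfl | rfl | rfl | rfl)
    · left; rw [one_mul]
    · right; left; rw [one_mul]
    · right; right; left; rw [one_mul]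
    · right; right; right; rw [one_mul]
    · right; left; rw [mul_one]
    · left; exact ha
    · right; right; right; rfl
    · right; right; left; exact h1
    · right; right; left; rw [mul_one]
    · right; right; right; exact hab.symm
    · left; exact hb
    · right; left; exact h2
    · right; right; right; rw [mul_one]
    · right; right; left; exact h3
    · right; left; exact h4
    · left; exact h5
  inv_mem' := by
    have h2 : b * (a * b) = a := by rw [hab, ← mul_assoc, hb, one_mul]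
    have h5 : a * b * (a * b) = 1 := by rw [mul_assoc, h2, ha]
    rintro x (rfl | rfl | rfl | rfl)
    · left; rw [inv_one]
    · right; left; exact inv_eq_of_mul_eq_one_right ha
    · right; right; left; exact inv_eq_of_mul_eq_one_right hb
    · right; right; right; exact inv_eq_of_mul_eq_one_right h5

omit [Finite A] in
lemma four_pg {a b : A} (ha : a * a = 1) (hb : b * b = 1) (hab : a * b = b * a) :
    IsPGroup 2 (four a b ha hb hab) := by
  rintro ⟨g, hg⟩
  refine ⟨1, ?_⟩
  have h2 : b * (a * b) = a := by rw [hab, ← mul_assoc, hb, one_mul]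
  have h5 : a * b * (a * b) = 1 := by rw [mul_assoc, h2, ha]
  apply Subtype.ext
  show g ^ (2 ^ 1) = 1
  rw [pow_one, sq]
  rcases hg with rfl | rfl | rfl | rfl
  · rw [one_mul]
  · exact ha
  · exact hb
  · exact h5

end abstract

section blocks
variable {X : Type*} [Fintype X] [DecidableEq X]

/-- the stabilizer of a block in `G` -/
def stb (G : Subgroup (Equiv.Perm X)) (B : Finset X) : Subgroup (Equiv.Perm X) where
  carrier := {g | g ∈ G ∧ B.image g = B}
  one_mem' := ⟨G.one_mem, Finset.image_id⟩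
  mul_mem' := by
    rintro a b ⟨ha, ha'⟩ ⟨hb, hb'⟩
    refine ⟨G.mul_mem ha hb, ?_⟩
    have : (⇑(a * b) : X → X) = a ∘ b := rfl
    rw [this, ← Finset.image_image, hb', ha']
  inv_mem' := by
    rintro a ⟨ha, ha'⟩
    refine ⟨G.inv_mem ha, ?_⟩
    conv_lhs => rw [← ha']
    rw [Finset.image_image]
    have : (⇑(a⁻¹) : X → X) ∘ a = id := by
      funext x
      simp
    rw [this, Finset.image_id]

lemma mem_stb {G : Subgroup (Equiv.Perm X)} {B : Finset X} {g : Equiv.Perm X} :
    g ∈ stb G B ↔ g ∈ G ∧ B.image g = B := Iff.rfl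

lemma stb_image {G : Subgroup (Equiv.Perm X)} {B : Finset X} {g : Equiv.Perm X} (hg : g ∈ G) :
    stb G (B.image g) = cj g (stb G B) := by
  ext x
  rw [mem_cj, mem_stb, mem_stb]
  have h1 : x ∈ G ↔ g⁻¹ * x * g ∈ G := by
    constructor
    · intro h
      exact G.mul_mem (G.mul_mem (G.inv_mem hg) h) hg
    · intro h
      have h2 : x = g * (g⁻¹ * x * g) * g⁻¹ := by group
      rw [h2]
      exact G.mul_mem (G.mul_mem hg h) (G.inv_mem hg)
  rw [← h1]
  refine and_congr_right fun _ => ?_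
  rw [Finset.image_image]
  have h3 : (⇑(g⁻¹ * x * g) : X → X) = (⇑g⁻¹ : X → X) ∘ (x ∘ g) := rfl
  have h4 : (⇑g⁻¹ : X → X) ∘ g = id := by funext x; simp
  have h5 : (g : X → X) ∘ (⇑g⁻¹ : X → X) = id := by funext x; simp
  rw [h3]
  constructor
  · intro h
    rw [← Finset.image_image, h, Finset.image_image, h4, Finset.image_id]
  · intro h
    rw [← Finset.image_image] at h
    have h6 : ((B.image (x ∘ g)).image (⇑g⁻¹ : X → X)).image g = B.image g := by rw [h]
    rw [Finset.image_image, h5, Finset.image_id] at h6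
    exact h6

/-- a `2`-group `W` such that all maximal `2`-subgroups of stabilizers above `W` are equal to a
self-normalizing `P` leaves at most one block invariant -/
theorem unique_block {G : Subgroup (Equiv.Perm X)} {𝓑 : Finset (Finset X)}
    (htr : ∀ B ∈ 𝓑, ∀ B' ∈ 𝓑, ∃ g ∈ G, B' = B.image g) {W P : Subgroup (Equiv.Perm X)}
    (hW : IsPGroup 2 W)
    (hP : ∀ B ∈ 𝓑, ∀ Q, IsSyl Q (stb G B) → W ≤ Q → Q = P)
    (hN : ∀ g ∈ G, (∀ x, x ∈ P ↔ g⁻¹ * x * g ∈ P) → g ∈ P) {B B' : Finset X} (hB : B ∈ 𝓑)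
    (hB' : B' ∈ 𝓑) (h : W ≤ stb G B) (h' : W ≤ stb G B') : B = B' := by
  obtain ⟨Q, hQ, hWQ⟩ := exists_syl h hW
  obtain ⟨Q', hQ', hWQ'⟩ := exists_syl h' hW
  rw [hP B hB Q hQ hWQ] at hQ
  rw [hP B' hB' Q' hQ' hWQ'] at hQ'
  obtain ⟨g, hg, rfl⟩ := htr B hB B' hB'
  have h1 := hQ.cj g
  rw [← stb_image hg] at h1
  obtain ⟨f, hf, h2⟩ := syl_conj h1 hQ'
  have h3 : f * g ∈ P := by
    refine hN _ (G.mul_mem (mem_stb.1 hf).1 hg) fun x => ?_
    rw [h2, mem_cj]
    have : g⁻¹ * (f⁻¹ * x * f) * g = (f * g)⁻¹ * x * (f * g) := by group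
    rw [this]
  have h4 := (mem_stb.1 (hQ.le h3)).2
  have h5 : (⇑(f * g) : X → X) = f ∘ g := rfl
  rw [h5, ← Finset.image_image, (mem_stb.1 hf).2] at h4
  exact h4.symm

end blocks

end Pool.Agent.N86.S9
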