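import Pool.Agent.N86.S9.Homog

/-!
# No subgroup between `PSL(2, q)` and `PGL(2, q)` is block-transitive on a `6`-design with odd `λ`, if
`q ≡ 1 (mod 4)`
-/

set_option autoImplicit false

namespace Pool.Agent.N86.S9

open Finset Matrix Pool.Agent.N86.S6 Pool.Agent.N86.S4 Pool.Agent.N86.S46 Pool.Agent.N86.S8

variable {K : Type*} [Field K] [DecidableEq K] [Fintype K]

lemma mul_square {x y : K} (hF : ringChar K ≠ 2) (hx : ¬ IsSquare x) (hy : ¬ IsSquare y) :
    IsSquare (x * y) := by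
  have e1 : quadraticChar K x = -1 := quadraticChar_neg_one_iff_not_isSquare.2 hx
  have e2 : quadraticChar K y = -1 := quadraticChar_neg_one_iff_not_isSquare.2 hy
  have hx0 : x ≠ 0 := fun e => hx (by rw [e]; exact ⟨0, by ring⟩)
  have hy0 : y ≠ 0 := fun e => hy (by rw [e]; exact ⟨0, by ring⟩)
  refine (quadraticChar_one_iff_isSquare (mul_ne_zero hx0 hy0)).1 ?_
  rw [map_mul, e1, e2]
  norm_num

/-- no subgroup between `PSL(2, q)` and `PGL(2, q)` is block-transitive -/
theorem between_none {k lam : ℕ} {𝓑 : Finset (Finset (OnePoint K))} (hD : IsDesign 6 k lam 𝓑)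
    (hlam : Odd lam) (hk6 : 6 < k) (hk : k < Fintype.card K + 1) (hq : Fintype.card K % 4 = 1)
    {G : Subgroup (Equiv.Perm (OnePoint K))}
    (hSL : ∀ A : SpecialLinearGroup (Fin 2) K, slPerm A ∈ G)
    (hG : ∀ g ∈ G, ∃ A : GL (Fin 2) K, g = glPerm A)
    (hinv : ∀ g ∈ G, ∀ B ∈ 𝓑, B.image g ∈ 𝓑) {B0 : Finset (OnePoint K)} (hB0 : B0 ∈ 𝓑)
    (htr : ∀ B ∈ 𝓑, ∃ g ∈ G, B = B0.image g) {C : Finset (OnePoint K)} (hC : C.card = k)
    (hC' : C ∉ 𝓑) : False := by
  have h2 : (2 : K) ≠ 0 := two_ne_zero_of_odd (by rw [Nat.odd_iff]; omega)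
  have hF : ringChar K ≠ 2 := by
    intro e
    apply h2
    have h3 := (ringChar.spec K 2).2 (by rw [e])
    exact_mod_cast h3
  obtain ⟨i, hi⟩ := exists_i (K := K) (by omega)
  obtain ⟨a, ha⟩ := FiniteField.exists_nonsquare hF
  have ha0 : a ≠ 0 := by rintro rfl; exact ha ⟨0, by rw [mul_zero]⟩
  have hgap := gap hD (by omega) hB0 hC hC'
  rw [card_line] at hgap
  have htr2 : ∀ B ∈ 𝓑, ∀ B' ∈ 𝓑, ∃ g ∈ G, B' = B.image g := by
    intro B hB B' hB'
    obtain ⟨g, hg, rfl⟩ := htr B hB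
    obtain ⟨g', hg', rfl⟩ := htr B' hB'
    refine ⟨g' * g⁻¹, G.mul_mem hg' (G.inv_mem hg), ?_⟩
    rw [Finset.image_image]
    have h1 : (⇑(g' * g⁻¹) : OnePoint K → OnePoint K) ∘ g = g' := by
      funext x
      show g' (g⁻¹ (g x)) = g' x
      congr 1
      exact g.symm_apply_apply x
    rw [h1]
  by_cases hsq : ∀ g ∈ G, ∃ A : GL (Fin 2) K, g = glPerm A ∧ IsSquare (A.det : K)
  · obtain ⟨g, hg, h⟩ := three_homog hD (by omega) (by rw [card_line]; omega) hB0 htr
      (card_tri (one_ne_zero (α := K))) (card_tri ha0)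
    obtain ⟨A, rfl, hA⟩ := hsq g hg
    exact ha (tri_square hi A hA h)
  · push Not at hsq
    obtain ⟨g0, hg0, hg0'⟩ := hsq
    obtain ⟨A0, rfl⟩ := hG g0 hg0
    have hA0 := hg0' A0 rfl
    have hGL : ∀ A : GL (Fin 2) K, glPerm A ∈ G := by
      intro A
      by_cases hA : IsSquare (A.det : K)
      · obtain ⟨S, hS⟩ := glPerm_square A hA
        rw [hS]; exact hSL S
      · have h1 : IsSquare ((A * A0⁻¹).det : K) := by
          have h3 : ((A * A0⁻¹).det : K) =
              ((A.det : K) * (A0.det : K)) * (((A0.det : K))⁻¹ * ((A0.det : K))⁻¹) := by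
            rw [map_mul, map_inv, Units.val_mul, Units.val_inv_eq_inv_val]
            have h4 : (A0.det : K) ≠ 0 := A0.det.ne_zero
            field_simp
          rw [h3]
          exact (mul_square hF hA hA0).mul ⟨_, rfl⟩
        obtain ⟨S, hS⟩ := glPerm_square (A * A0⁻¹) h1
        have h5 : glPerm A = glPerm (A * A0⁻¹) * glPerm A0 := by
          rw [← glPerm_mul, inv_mul_cancel_right]
        rw [h5, hS]
        exact G.mul_mem (hSL S) hg0
    exact pgl_none hD hlam hk hq hGL hG hinv htr2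

omit [DecidableEq K] in
/-- a field with a prime number of elements has no automorphism -/
lemma aut_trivial (hp : (Fintype.card K).Prime) (σ : K ≃+* K) (x : K) : σ x = x := by
  obtain ⟨p, hp'⟩ := CharP.exists K
  have hpp : p.Prime := by
    rcases CharP.char_is_prime_or_zero K p with h | h
    · exact h
    · subst h
      haveI := CharP.charP_to_charZero K
      exact absurd (Finite.of_fintype K) (fun h => (not_finite_iff_infinite.2 inferInstance) h)
  have h1 : p = Fintype.card K := by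
    obtain ⟨n, h2, h3⟩ := FiniteField.card K p
    rw [h3] at hp
    have h4 : (n : ℕ) = 1 := Nat.Prime.eq_one_of_pow hp
    rw [h3, h4, pow_one]
  subst h1
  have hb := ZMod.castHom_bijective K (n := Fintype.card K) rfl
  obtain ⟨y, rfl⟩ := hb.2 x
  obtain ⟨n, rfl⟩ : ∃ n : ℕ, y = n := by
    haveI : NeZero (Fintype.card K) := ⟨hp.ne_zero⟩
    exact ⟨y.val, (ZMod.natCast_zmod_val y).symm⟩
  rw [map_natCast, map_natCast]

end Pool.Agent.N86.S9
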