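import Pool.Agent.N86.S9.Three
import Pool.Agent.N86.S7.Quad2
import Pool.Agent.N86.S8.Order

/-!
# The centralizer of the involution `x ↦ - 1 / x`, if `-1` is not a square
-/

set_option autoImplicit false

namespace Pool.Agent.N86.S9

open Finset Matrix Pool.Agent.N86.S6 Pool.Agent.N86.S4 Pool.Agent.N86.S46 Pool.Agent.N86.S7

section
variable {K L : Type*} [Field K] [DecidableEq K] [Field L] (Q : Quad2 K L (-1) 0)

/-- `g` is `u ↦ w u` -/
structure MulL (g : Equiv.Perm (OnePoint K)) (w : L) : Prop where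
  ne : w ≠ 0
  eq : ∀ u : L, u ≠ 0 → g (Q.phi u) = Q.phi (w * u)

/-- `g` is `u ↦ w / u` -/
structure InvL (g : Equiv.Perm (OnePoint K)) (w : L) : Prop where
  ne : w ≠ 0
  eq : ∀ u : L, u ≠ 0 → g (Q.phi u) = Q.phi (w / u)

variable {Q} {g h : Equiv.Perm (OnePoint K)} {w v : L}

lemma MulL.mul (hg : MulL Q g w) (hh : MulL Q h v) : MulL Q (g * h) (w * v) where
  ne := mul_ne_zero hg.ne hh.ne
  eq u hu := by
    rw [Equiv.Perm.mul_apply, hh.eq u hu, hg.eq _ (mul_ne_zero hh.ne hu), mul_assoc]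

lemma InvL.mul_inv (hg : InvL Q g w) (hh : InvL Q h v) : MulL Q (g * h) (w / v) where
  ne := div_ne_zero hg.ne hh.ne
  eq u hu := by
    rw [Equiv.Perm.mul_apply, hh.eq u hu, hg.eq _ (div_ne_zero hh.ne hu)]
    congr 1
    have := hh.ne
    field_simp

lemma MulL.mul_inv (hg : MulL Q g w) (hh : InvL Q h v) : InvL Q (g * h) (w * v) where
  ne := mul_ne_zero hg.ne hh.ne
  eq u hu := by
    rw [Equiv.Perm.mul_apply, hh.eq u hu, hg.eq _ (div_ne_zero hh.ne hu), mul_div_assoc]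

lemma InvL.mul_mul (hg : InvL Q g w) (hh : MulL Q h v) : InvL Q (g * h) (w / v) where
  ne := div_ne_zero hg.ne hh.ne
  eq u hu := by
    rw [Equiv.Perm.mul_apply, hh.eq u hu, hg.eq _ (mul_ne_zero hh.ne hu)]
    congr 1
    have := hh.ne
    field_simp

lemma MulL.one : MulL Q (1 : Equiv.Perm (OnePoint K)) 1 where
  ne := one_ne_zero
  eq u _ := by rw [one_mul]; rfl

lemma MulL.inv (hg : MulL Q g w) : MulL Q g⁻¹ w⁻¹ where
  ne := inv_ne_zero hg.ne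
  eq u hu := by
    rw [Equiv.Perm.inv_eq_iff_eq, hg.eq _ (mul_ne_zero (inv_ne_zero hg.ne) hu),
      mul_inv_cancel_left₀ hg.ne]

lemma MulL.ext (hg : MulL Q g w) (hh : MulL Q h w) : g = h := by
  ext x : 1
  rw [← Q.phi_rep x, hg.eq _ (Q.rep_ne x), hh.eq _ (Q.rep_ne x)]

lemma InvL.ext (hg : InvL Q g w) (hh : InvL Q h w) : g = h := by
  ext x : 1
  rw [← Q.phi_rep x, hg.eq _ (Q.rep_ne x), hh.eq _ (Q.rep_ne x)]

lemma InvL.sq (hg : InvL Q g w) : g * g = 1 := by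
  have h1 := hg.mul_inv hg
  rw [div_self hg.ne] at h1
  exact h1.ext MulL.one

variable (Q)

lemma gl_phi (A : GL (Fin 2) K) {u : L} (hu : u ≠ 0) :
    glPerm A (Q.phi u) = Q.phi (Q.i (Q.re u) * (Q.i (A 0 0) + Q.i (A 1 0) * Q.θ) +
      Q.i (Q.im u) * (Q.i (A 0 1) + Q.i (A 1 1) * Q.θ)) := by
  obtain ⟨h1, h2⟩ := Q.coords (x := A 0 0 * Q.re u + A 0 1 * Q.im u)
    (y := A 1 0 * Q.re u + A 1 1 * Q.im u)
    (u := Q.i (Q.re u) * (Q.i (A 0 0) + Q.i (A 1 0) * Q.θ) +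
      Q.i (Q.im u) * (Q.i (A 0 1) + Q.i (A 1 1) * Q.θ)) (by
      simp only [map_add, map_mul]; ring)
  unfold Quad2.phi
  rw [h1, h2, pt_gl _ _ _ (Q.re_im_ne hu)]

lemma theta_sq : Q.θ * Q.θ = -1 := by
  have h := Q.hθ
  rw [map_neg, map_one, map_zero, zero_mul, add_zero] at h
  rw [← sq]; exact h

lemma theta_ne : Q.θ ≠ 0 := by
  intro h
  have h1 := theta_sq Q
  rw [h, mul_zero] at h1
  exact one_ne_zero (neg_eq_zero.1 h1.symm)

/-- the centralizer of `z : u ↦ θ u` -/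
theorem comm_cases {z : Equiv.Perm (OnePoint K)} (hz : MulL Q z Q.θ) (A : GL (Fin 2) K)
    (hcomm : glPerm A * z = z * glPerm A) : ∃ w, MulL Q (glPerm A) w ∨ InvL Q (glPerm A) w := by
  have hc : ∀ x, glPerm A (z x) = z (glPerm A x) := fun x => by
    rw [← Equiv.Perm.mul_apply, hcomm, Equiv.Perm.mul_apply]
  have hθ := theta_sq Q
  have hdet : A 0 0 * A 1 1 - A 0 1 * A 1 0 ≠ 0 := by
    have h1 := A.det_ne_zero
    rwa [Matrix.det_fin_two] at h1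
  have hU : Q.i (A 0 0) + Q.i (A 1 0) * Q.θ ≠ 0 := by
    intro h
    obtain ⟨h1, h2⟩ := Q.ind _ _ h
    apply hdet; rw [h1, h2]; ring
  have hV : Q.i (A 0 1) + Q.i (A 1 1) * Q.θ ≠ 0 := by
    intro h
    obtain ⟨h1, h2⟩ := Q.ind _ _ h
    apply hdet; rw [h1, h2]; ring
  have hind : ∀ x y : K, ¬ (x = 0 ∧ y = 0) →
      Q.i x * (Q.i (A 0 0) + Q.i (A 1 0) * Q.θ) + Q.i y * (Q.i (A 0 1) + Q.i (A 1 1) * Q.θ) ≠ 0 := by
    intro x y hxy h
    obtain ⟨h1, h2⟩ := Q.ind (A 0 0 * x + A 0 1 * y) (A 1 0 * x + A 1 1 * y) (by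
      rw [← h]; simp only [map_add, map_mul]; ring)
    apply hxy
    constructor
    · have : (A 0 0 * A 1 1 - A 0 1 * A 1 0) * x = 0 := by
        linear_combination A 1 1 * h1 - A 0 1 * h2
      exact (mul_eq_zero.1 this).resolve_left hdet
    · have : (A 0 0 * A 1 1 - A 0 1 * A 1 0) * y = 0 := by
        linear_combination A 0 0 * h2 - A 1 0 * h1
      exact (mul_eq_zero.1 this).resolve_left hdet
  have hgl : ∀ x y : K, ¬ (x = 0 ∧ y = 0) → glPerm A (Q.phi (Q.i x + Q.i y * Q.θ)) =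
      Q.phi (Q.i x * (Q.i (A 0 0) + Q.i (A 1 0) * Q.θ) +
        Q.i y * (Q.i (A 0 1) + Q.i (A 1 1) * Q.θ)) := by
    intro x y hxy
    have h0 : Q.i x + Q.i y * Q.θ ≠ 0 := fun h => hxy (Q.ind _ _ h)
    rw [gl_phi Q A h0]
    obtain ⟨h1, h2⟩ := Q.coords (x := x) (y := y) (u := Q.i x + Q.i y * Q.θ) rfl
    rw [h1, h2]
  -- the point `∞`
  have p1 : Q.i (A 0 1) + Q.i (A 1 1) * Q.θ ≠ 0 := hV
  have e1 := hc (Q.phi (Q.i 1 + Q.i 0 * Q.θ))
  rw [hz.eq _ (by simp), hgl 1 0 (by simp)] at e1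
  have e2 : Q.θ * (Q.i 1 + Q.i 0 * Q.θ) = Q.i 0 + Q.i 1 * Q.θ := by simp
  rw [e2, hgl 0 1 (by simp), hz.eq _ (by simpa using hU)] at e1
  simp only [map_zero, map_one, zero_mul, one_mul, zero_add, add_zero] at e1
  obtain ⟨c, hc0, hVc⟩ := Q.phi_eq hV (mul_ne_zero (theta_ne Q) hU) e1
  -- the point `1`
  have e3 := hc (Q.phi (Q.i 1 + Q.i 1 * Q.θ))
  have h11 : Q.i 1 + Q.i 1 * Q.θ ≠ 0 := fun h => one_ne_zero (Q.ind _ _ h).1
  have e4 : Q.θ * (Q.i 1 + Q.i 1 * Q.θ) = Q.i (-1) + Q.i 1 * Q.θ := by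
    simp only [map_one, map_neg, one_mul]
    linear_combination hθ
  rw [hz.eq _ h11, e4, hgl (-1) 1 (by simp), hgl 1 1 (by simp),
    hz.eq _ (hind 1 1 (by simp))] at e3
  obtain ⟨d, hd0, hd⟩ := Q.phi_eq (hind (-1) 1 (by simp))
    (mul_ne_zero (theta_ne Q) (hind 1 1 (by simp))) e3
  generalize Q.i (A 0 0) + Q.i (A 1 0) * Q.θ = U at *
  generalize Q.i (A 0 1) + Q.i (A 1 1) * Q.θ = V at *
  simp only [map_one, map_neg, one_mul, neg_mul] at hd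
  have h5 : U * (Q.i (d * c - 1) + Q.i (c - d) * Q.θ) = 0 := by
    simp only [map_sub, map_mul, map_one]
    rw [hVc] at hd
    linear_combination hd + (Q.i d * Q.i c * U) * hθ
  obtain ⟨h6, h7⟩ := Q.ind _ _ ((mul_eq_zero.1 h5).resolve_left hU)
  have h8 : c = d := sub_eq_zero.1 h7
  subst h8
  have h9 : c * c = 1 := sub_eq_zero.1 h6
  rcases mul_self_eq_one_iff.1 h9 with h10 | h10
  · refine ⟨U, Or.inl ⟨hU, fun u hu => ?_⟩⟩
    have h11 := Q.eq u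
    have h12 : ¬ (Q.re u = 0 ∧ Q.im u = 0) := Q.re_im_ne hu
    conv_lhs => rw [h11]
    rw [hgl _ _ h12]
    congr 1
    rw [hVc, h10]
    conv_rhs => rw [h11]
    rw [map_one]; ring
  · refine ⟨U, Or.inr ⟨hU, fun u hu => ?_⟩⟩
    have h11 := Q.eq u
    have h12 : ¬ (Q.re u = 0 ∧ Q.im u = 0) := Q.re_im_ne hu
    conv_lhs => rw [h11]
    rw [hgl _ _ h12, ← Q.phi_smul (Q.norm_ne hu) (U / u)]
    congr 1
    rw [hVc, h10]
    have h13 : Q.i (Q.norm u) = u * (Q.i (Q.re u) - Q.i (Q.im u) * Q.θ) := by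
      unfold Quad2.norm
      simp only [map_add, map_sub, map_mul, map_pow, map_neg, map_one, map_zero]
      linear_combination -(Q.i (Q.re u) - Q.i (Q.im u) * Q.θ) * h11 +
        (Q.i (Q.im u)) ^ 2 * hθ
    rw [h13, map_neg, map_one]
    field_simp
    ring

end

end Pool.Agent.N86.S9
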